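import Mathlib
import Pool.Agent.W672.FK.Lowf
import Pool.Agent.W307.RT.Tors
import Pool.Agent.Y679.Cr.Conv
import Pool.Agent.Y679.Cr.Mom
import Pool.Agent.X293.CO.Ex

/-!
# The ranks of the elliptic curves with torsion group `Z/2 x Z/2` in the ordering by the conductor

All elliptic curves over `ℚ` with torsion group `Z/2 x Z/2`, ordered by the conductor, without any
bound on the height or on the discriminant. The number of the curves with full rational 2-torsion,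
conductor at most `Z` and a larger torsion group is `O (Z ^ (2/3 - η))` for some `η > 0`, and the
number of the curves with torsion group `Z/2 x Z/2` is of the order `Z ^ (2/3)`; the average rank of
the latter is bounded, and the proportion of those of rank at least `r` is at most `C 2 ^ (-θ r)` for
every `θ < 2 / 3`; their upper density decays faster than any exponential.
-/

set_option autoImplicit false

namespace Pool.Agent.Results.MP_9e6228_nt.ExactTorsionByConductor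

open Finset Filter Topology

open Pool.Agent.TH841.SH.D (Sha ShaTor HasDiv rk)

/-- the curve `y² = x³ + A x + B` over `ℚ` -/
def E (c : ℤ × ℤ) : WeierstrassCurve ℚ := ⟨0, 0, 0, (c.1 : ℚ), (c.2 : ℚ)⟩

/-- the Mordell-Weil rank -/
noncomputable def rank (c : ℤ × ℤ) : ℕ := Module.finrank ℤ (E c).toAffine.Point

/-- The prime-to-6 part of the conductor of `y² = x³ + A x + B` (there is no prime `p` with `p⁴ ∣ A`
and `p⁶ ∣ B`): the product over the primes `p ≥ 5` dividing `4 A³ + 27 B²` of `p` (multiplicative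
reduction: `p ∤ A`) or `p²` (additive reduction: `p ∣ A`) -/
def Cond6 (c : ℤ × ℤ) : ℕ :=
  ∏ p ∈ (Int.natAbs (4 * c.1 ^ 3 + 27 * c.2 ^ 2)).primeFactors.filter (fun p => 5 ≤ p),
    if (p : ℤ) ∣ c.1 then p ^ 2 else p

/-- the admissible factors: functions with values between `1` and `2 ^ 8 * 3 ^ 5`, for instance the
part of the conductor composed of the primes 2 and 3, or `f = 1` -/
def Factor (f : ℤ × ℤ → ℕ) : Prop := ∀ c, 1 ≤ f c ∧ f c ≤ 2 ^ 8 * 3 ^ 5

/-- The pairs `(A, B)` of integers such that `4 A³ + 27 B² ≠ 0`, there is no prime `p` with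
`p⁴ ∣ A` and `p⁶ ∣ B`, `Z/2 x Z/2` embeds in the group of the rational points of
`y² = x³ + A x + B`, and `f * Cond6 ≤ Z` (for a suitable factor `f`: the conductor is at most `Z`).
Every elliptic curve over `ℚ` with full rational 2-torsion is isomorphic to `E` of exactly one pair
with the first three properties. -/
def Fam (f : ℤ × ℤ → ℕ) (Z : ℕ) : Set (ℤ × ℤ) :=
  {c : ℤ × ℤ | 4 * c.1 ^ 3 + 27 * c.2 ^ 2 ≠ 0 ∧
    (∀ p : ℕ, p.Prime → ¬ ((p : ℤ) ^ 4 ∣ c.1 ∧ (p : ℤ) ^ 6 ∣ c.2)) ∧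
    (∃ g : ZMod 2 × ZMod 2 →+ (E c).toAffine.Point, Function.Injective g) ∧ f c * Cond6 c ≤ Z}

/-- The curves of `Fam f Z` without a rational point of order 3 or 4. By Mazur's theorem these are
the elliptic curves over `ℚ` with torsion group `Z/2 x Z/2` (of size at most `Z`). -/
def Exact (f : ℤ × ℤ → ℕ) (Z : ℕ) : Set (ℤ × ℤ) :=
  {c ∈ Fam f Z | ∀ Q : (E c).toAffine.Point, addOrderOf Q ≠ 3 ∧ addOrderOf Q ≠ 4}

/-- the proportion of the curves of `S` among the curves with torsion group `Z/2 x Z/2` -/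
noncomputable def proportion (f : ℤ × ℤ → ℕ) (S : Set (ℤ × ℤ)) (Z : ℕ) : ℝ :=
  ((Exact f Z ∩ S).ncard : ℝ) / (Exact f Z).ncard

/-- the weight `2 ^ rank * #Ш[2 ^ k] ^ (1 / k)` -/
noncomputable def weight (k : ℕ) (c : ℤ × ℤ) : ℝ :=
  (2 : ℝ) ^ rank c * (Nat.card (ShaTor (E c) (2 ^ k)) : ℝ) ^ ((1 : ℝ) / k)

/-- the curves with `rank + corank Ш[2 ^ ∞] ≥ r`: `Ш` has a subgroup `(ℚ₂ / ℤ₂) ^ m` with
`r ≤ rank + m` -/
def High (r : ℕ) : Set (ℤ × ℤ) := {c | ∃ m : ℕ, HasDiv (E c) m ∧ r ≤ rank c + m}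

/-- the property without the size -/
def Pr (c : ℤ × ℤ) : Prop := 4 * c.1 ^ 3 + 27 * c.2 ^ 2 ≠ 0 ∧
    (∀ p : ℕ, p.Prime → ¬ ((p : ℤ) ^ 4 ∣ c.1 ∧ (p : ℤ) ^ 6 ∣ c.2)) ∧
    (∃ g : ZMod 2 × ZMod 2 →+ (E c).toAffine.Point, Function.Injective g)

lemma good : Pool.Agent.Y679.Cr.Good Pr := by
  classical
  refine ⟨fun c hc => ⟨?_, ?_⟩, fun H c hc => ?_, Pool.Agent.W672.FK.lowf⟩
  · exact Pool.Agent.Y679.Cr.isMin_of hc.1 hc.2.1
  · exact Pool.Agent.Y679.Cr.full_of (Pool.Agent.W307.RT.tors_iff.2 hc.2.2)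
  · unfold Pool.Agent.W307.RT.Cv at hc
    obtain ⟨-, h1, -, -, h2, h3⟩ := mem_filter.1 hc
    exact ⟨h1, h2, Pool.Agent.W307.RT.tors_iff.1 h3⟩

lemma goodT (c : ℤ × ℤ) (hc : Pr c) : 4 * c.1 ^ 3 + 27 * c.2 ^ 2 ≠ 0 ∧
      (∀ p : ℕ, p.Prime → ¬ ((p : ℤ) ^ 4 ∣ c.1 ∧ (p : ℤ) ^ 6 ∣ c.2)) ∧
      Pool.Agent.W307.RT.HasT 2 (Pool.Agent.W307.RT.Sh c.1 c.2) :=
  ⟨hc.1, hc.2.1, Pool.Agent.W307.RT.tors_iff.2 hc.2.2⟩

lemma cond_eq (c : ℤ × ℤ) : Pool.Agent.Y679.Cr.cs c = Cond6 c := by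
  unfold Pool.Agent.Y679.Cr.cs Pool.Agent.H925R.Szpiro.condS Cond6
  rw [Pool.Agent.Y679.Cr.D_neg, Int.natAbs_neg]
  refine prod_congr rfl fun p _ => ?_
  by_cases h : (p : ℤ) ∣ c.1
  · rw [if_pos h, if_pos (Int.dvd_neg.2 h)]
  · rw [if_neg h, if_neg fun h' => h (Int.dvd_neg.1 h')]

lemma bdd {f : ℤ × ℤ → ℕ} (hf : Factor f) : Pool.Agent.Y679.Cr.Bdd f :=
  fun c => ⟨(hf c).1, (hf c).2.trans (by norm_num)⟩

lemma Fam_eq (f : ℤ × ℤ → ℕ) (Z : ℕ) : Fam f Z = Pool.Agent.Y679.Cr.Gm Pr f Z := by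
  ext c
  unfold Fam Pool.Agent.Y679.Cr.Gm
  rw [Set.mem_ofPred_eq, Set.mem_ofPred_eq, cond_eq]
  exact ⟨fun h => ⟨⟨h.1, h.2.1, h.2.2.1⟩, h.2.2.2⟩, fun h => ⟨h.1.1, h.1.2.1, h.1.2.2, h.2⟩⟩

lemma Exact_sub (f : ℤ × ℤ → ℕ) (Z : ℕ) : Exact f Z ⊆ Fam f Z := fun _ h => h.1

lemma diff_eq (f : ℤ × ℤ → ℕ) (Z : ℕ) : Fam f Z \ Exact f Z =
    Pool.Agent.Y679.Cr.Gm Pr f Z ∩ {c | ¬ Pool.Agent.Y294.ET.No34 c} := by
  rw [← Fam_eq]
  ext c
  exact ⟨fun h => ⟨h.1, fun h' => h.2 ⟨h.1, h'⟩⟩, fun h => ⟨h.1, fun h' => h.2 h'.2⟩⟩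

lemma Fam_fin {f : ℤ × ℤ → ℕ} (hf : Factor f) (Z : ℕ) : (Fam f Z).Finite := by
  rw [Fam_eq]
  exact Pool.Agent.Y679.Cr.Gm_fin good (bdd hf) Z

lemma Fam_mono {f : ℤ × ℤ → ℕ} {Z Z' : ℕ} (h : Z ≤ Z') : Fam f Z ⊆ Fam f Z' :=
  fun _ hc => ⟨hc.1, hc.2.1, hc.2.2.1, hc.2.2.2.trans h⟩

/-- almost all the curves of the family have torsion group `Z/2 x Z/2` -/
lemma most {ε : ℝ} (hε : 0 < ε) : ∃ Z0 : ℕ, ∀ f : ℤ × ℤ → ℕ, Factor f → ∀ Z : ℕ, Z0 ≤ Z →
    0 < (Fam f Z).ncard ∧ (1 - ε) * ((Fam f Z).ncard : ℝ) ≤ (Exact f Z).ncard := by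
  obtain ⟨Z0, h⟩ := Pool.Agent.X293.CO.few_eps good goodT hε
  refine ⟨Z0, fun f hf Z hZ => ?_⟩
  obtain ⟨h1, h2⟩ := h f (bdd hf) Z hZ
  rw [← diff_eq] at h2
  rw [← Fam_eq] at h1 h2
  refine ⟨h1, ?_⟩
  have h3 := Set.ncard_sdiff_add_ncard_of_subset (Exact_sub f Z) (Fam_fin hf Z)
  have h4 : (((Fam f Z \ Exact f Z).ncard : ℕ) : ℝ) + ((Exact f Z).ncard : ℝ) =
      (Fam f Z).ncard := by exact_mod_cast h3
  linarith

/-- the curves of the family are at most `K` times as many as those with torsion `Z/2 x Z/2` -/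
lemma ratio : ∃ K : ℝ, 0 ≤ K ∧ ∀ f : ℤ × ℤ → ℕ, Factor f → ∀ Z : ℕ, (Exact f Z).Nonempty →
    ((Fam f Z).ncard : ℝ) ≤ K * (Exact f Z).ncard := by
  obtain ⟨Z0, h⟩ := most (ε := 1 / 2) (by norm_num)
  obtain ⟨C, Z1, hC, hup⟩ := Pool.Agent.Y679.Cr.Gm_up good
  refine ⟨2 + C * ((max Z0 Z1 : ℕ) : ℝ) ^ ((2 : ℝ) / 3), by positivity, fun f hf Z hne => ?_⟩
  have hp : 0 ≤ C * ((max Z0 Z1 : ℕ) : ℝ) ^ ((2 : ℝ) / 3) := by positivity
  have he : (1 : ℝ) ≤ (Exact f Z).ncard := by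
    have := (Set.ncard_pos ((Fam_fin hf Z).subset (Exact_sub f Z))).2 hne
    exact_mod_cast this
  rcases le_or_gt Z0 Z with hZ | hZ
  · have h1 := (h f hf Z hZ).2
    nlinarith
  · have h1 : ((Fam f Z).ncard : ℝ) ≤ C * ((max Z0 Z1 : ℕ) : ℝ) ^ ((2 : ℝ) / 3) := by
      refine le_trans ?_ (hup f (bdd hf) (max Z0 Z1) (le_max_right _ _))
      rw [← Fam_eq]
      exact_mod_cast Set.ncard_le_ncard (Fam_mono (hZ.le.trans (le_max_left _ _)))
        (Fam_fin hf _)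
    nlinarith

/-- from sums over the family to sums over the curves with torsion group `Z/2 x Z/2` -/
lemma sum_of {f : ℤ × ℤ → ℕ} (hf : Factor f) {Z : ℕ} {K C : ℝ} (hC : 0 ≤ C)
    (hK : (Exact f Z).Nonempty → ((Fam f Z).ncard : ℝ) ≤ K * (Exact f Z).ncard)
    {X : Set (ℤ × ℤ)} {g : ℤ × ℤ → ℝ} (hg : ∀ c, 0 ≤ g c)
    (h : ∀ S : Finset (ℤ × ℤ), (S : Set (ℤ × ℤ)) = Fam f Z \ X →
      ∑ c ∈ S, g c ≤ C * ((Fam f Z).ncard : ℝ))
    (S : Finset (ℤ × ℤ)) (hS : (S : Set (ℤ × ℤ)) = Exact f Z \ X) :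
    ∑ c ∈ S, g c ≤ C * K * ((Exact f Z).ncard : ℝ) := by
  classical
  rcases (Exact f Z).eq_empty_or_nonempty with h0 | hne
  · have h1 : S = ∅ := by
      rw [← coe_eq_empty, hS, h0, Set.empty_sdiff]
    rw [h1, h0]
    simp
  · have hfin := (Fam_fin hf Z).subset (Set.sdiff_subset (t := X))
    obtain ⟨S', hS'⟩ : ∃ S' : Finset (ℤ × ℤ), (S' : Set (ℤ × ℤ)) = Fam f Z \ X :=
      ⟨hfin.toFinset, hfin.coe_toFinset⟩
    have hsub : S ⊆ S' := by
      rw [← coe_subset, hS, hS']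
      exact Set.sdiff_subset_sdiff_left (Exact_sub f Z)
    calc ∑ c ∈ S, g c ≤ ∑ c ∈ S', g c :=
          sum_le_sum_of_subset_of_nonneg hsub fun c _ _ => hg c
      _ ≤ C * ((Fam f Z).ncard : ℝ) := h S' hS'
      _ ≤ C * (K * (Exact f Z).ncard) := mul_le_mul_of_nonneg_left (hK hne) hC
      _ = _ := by ring

/-- from proportions in the family to proportions in the curves with torsion group `Z/2 x Z/2` -/
lemma prop_of {f : ℤ × ℤ → ℕ} (hf : Factor f) {Z : ℕ} {K : ℝ} (hK0 : 0 ≤ K)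
    (hK : (Exact f Z).Nonempty → ((Fam f Z).ncard : ℝ) ≤ K * (Exact f Z).ncard)
    (X : Set (ℤ × ℤ)) :
    proportion f X Z ≤ K * (((Pool.Agent.Y679.Cr.Gm Pr f Z ∩ X).ncard : ℝ) /
      (Pool.Agent.Y679.Cr.Gm Pr f Z).ncard) := by
  unfold proportion
  rw [← Fam_eq]
  rcases (Exact f Z).eq_empty_or_nonempty with h0 | hne
  · rw [h0]
    simp
    positivity
  have he : (0 : ℝ) < (Exact f Z).ncard := by
    have := (Set.ncard_pos ((Fam_fin hf Z).subset (Exact_sub f Z))).2 hne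
    exact_mod_cast this
  have hF : (0 : ℝ) < (Fam f Z).ncard := by
    have := (Set.ncard_pos (Fam_fin hf Z)).2 (hne.mono (Exact_sub f Z))
    exact_mod_cast this
  have h1 : ((Exact f Z ∩ X).ncard : ℝ) ≤ (Fam f Z ∩ X).ncard := by
    exact_mod_cast Set.ncard_le_ncard (Set.inter_subset_inter_left _ (Exact_sub f Z))
      ((Fam_fin hf Z).subset Set.inter_subset_left)
  have h2 := hK hne
  rw [div_le_iff₀ he]
  have h3 : K * (((Fam f Z ∩ X).ncard : ℝ) / (Fam f Z).ncard) * (Exact f Z).ncard =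
      (Fam f Z ∩ X).ncard * ((K * (Exact f Z).ncard) / (Fam f Z).ncard) := by ring
  rw [h3]
  have h4 : 1 ≤ (K * (Exact f Z).ncard) / (Fam f Z).ncard := by
    rw [le_div_iff₀ hF, one_mul]
    exact h2
  have h5 : (0 : ℝ) ≤ (Fam f Z ∩ X).ncard := Nat.cast_nonneg _
  nlinarith

/-- **Theorem.** Order the elliptic curves over `ℚ` with torsion group `Z/2 x Z/2` by the conductor
(times an arbitrary factor as in `Factor`), with no bound on the height or on the discriminant.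
(1) There are finitely many curves of size at most `Z`, and for large `Z` their number is between
`c Z ^ (2/3)` and `C Z ^ (2/3)`; the number of the curves of size at most `Z` with full rational
2-torsion and another torsion group is at most `C Z ^ (2/3 - η)` for all `Z ≥ 1`.
(2) The average rank of the curves of size at most `Z` with torsion group `Z/2 x Z/2` is at most `C`,
for all `Z`.
(3) For `0 < θ < 2 / 3` the average of `(2 ^ rank * #Ш[2 ^ k] ^ (1 / k)) ^ θ` over these curves is at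
most `C`, for all `Z` and `k ≥ 1` (the groups `Ш[2 ^ k]` are finite); the proportion of the curves with
`rank + corank Ш[2 ^ ∞] ≥ r` is at most `C 2 ^ (-θ r)`, for all `Z` and `r`.
(4) There is a set `X` of curves of density zero such that for every real `θ > 0` and all `Z` and
`k ≥ 1` the sum of `(2 ^ rank * #Ш[2 ^ k] ^ (1 / k)) ^ θ` over the curves of size at most `Z` with
torsion group `Z/2 x Z/2` outside `X` is at most `C` times the number of all of them; for every real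
`A` the upper density of the curves with `rank + corank Ш[2 ^ ∞] ≥ r`, times `A ^ r`, tends to `0` as
`r → ∞`. -/
theorem result :
    (∃ η c C : ℝ, 0 < η ∧ 0 < c ∧ ∀ f : ℤ × ℤ → ℕ, Factor f →
      (∀ Z : ℕ, (Fam f Z).Finite ∧
        (1 ≤ Z → ((Fam f Z \ Exact f Z).ncard : ℝ) ≤ C * (Z : ℝ) ^ ((2 : ℝ) / 3 - η))) ∧
      ∀ᶠ Z : ℕ in atTop, c * (Z : ℝ) ^ ((2 : ℝ) / 3) ≤ ((Exact f Z).ncard : ℝ) ∧
        ((Exact f Z).ncard : ℝ) ≤ C * (Z : ℝ) ^ ((2 : ℝ) / 3)) ∧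
    (∃ C : ℝ, ∀ f : ℤ × ℤ → ℕ, Factor f → ∀ (Z : ℕ) (S : Finset (ℤ × ℤ)),
      (S : Set (ℤ × ℤ)) = Exact f Z → ∑ c ∈ S, (rank c : ℝ) ≤ C * S.card) ∧
    (∀ θ : ℝ, 0 < θ → θ < 2 / 3 → ∃ C : ℝ, ∀ f : ℤ × ℤ → ℕ, Factor f → ∀ Z : ℕ,
      (∀ c ∈ Exact f Z, ∀ k : ℕ, Finite (ShaTor (E c) (2 ^ k))) ∧
      (∀ (k : ℕ) (S : Finset (ℤ × ℤ)), 1 ≤ k → (S : Set (ℤ × ℤ)) = Exact f Z →
        ∑ c ∈ S, weight k c ^ θ ≤ C * S.card) ∧
      ∀ r : ℕ, proportion f (High r) Z ≤ C * (2 : ℝ) ^ (-(θ * r))) ∧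
    ∃ X : Set (ℤ × ℤ), ∀ f : ℤ × ℤ → ℕ, Factor f →
      Tendsto (proportion f X) atTop (𝓝 0) ∧
      (∀ θ : ℝ, 0 < θ → ∃ C : ℝ, ∀ (Z k : ℕ) (S : Finset (ℤ × ℤ)), 1 ≤ k →
        (S : Set (ℤ × ℤ)) = Exact f Z \ X →
        ∑ c ∈ S, weight k c ^ θ ≤ C * ((Exact f Z).ncard : ℝ)) ∧
      ∀ A : ℝ, Tendsto (fun r : ℕ => A ^ r * limsup (proportion f (High r)) atTop) atTop
        (𝓝 0) := by
  obtain ⟨X, hX⟩ := Pool.Agent.Y679.Cr.tails good
  obtain ⟨K, hK0, hK⟩ := ratio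
  have hw : ∀ (k : ℕ) (θ : ℝ) (c : ℤ × ℤ), 0 ≤ weight k c ^ θ := fun k θ c => by
    unfold weight
    positivity
  refine ⟨?_, ?_, fun θ hθ0 hθ => ?_, X, fun f hf => ?_⟩
  · obtain ⟨η, C1, hη, hC1, hfew⟩ := Pool.Agent.X293.CO.few good goodT
    obtain ⟨c, Z0, hc, g1⟩ := Pool.Agent.Y679.Cr.Gm_ge good
    obtain ⟨C, Z1, -, g2⟩ := Pool.Agent.Y679.Cr.Gm_up good
    obtain ⟨Z2, g3⟩ := most (ε := 1 / 2) (by norm_num)
    refine ⟨η, c / 2, max C C1, hη, by positivity, fun f hf => ⟨fun Z => ⟨Fam_fin hf Z,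
      fun hZ => ?_⟩, ?_⟩⟩
    · rw [diff_eq]
      exact (hfew f (bdd hf) Z hZ).trans (mul_le_mul_of_nonneg_right (le_max_right _ _)
        (Real.rpow_nonneg (Nat.cast_nonneg _) _))
    · filter_upwards [eventually_ge_atTop Z0, eventually_ge_atTop Z1,
        eventually_ge_atTop Z2] with Z u1 u2 u3
      have v1 := g1 f (bdd hf) Z u1
      have v2 := g2 f (bdd hf) Z u2
      have v3 := (g3 f hf Z u3).2
      rw [← Fam_eq] at v1 v2
      have v4 : ((Exact f Z).ncard : ℝ) ≤ (Fam f Z).ncard := by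
        exact_mod_cast Set.ncard_le_ncard (Exact_sub f Z) (Fam_fin hf Z)
      refine ⟨by linarith, v4.trans (v2.trans (mul_le_mul_of_nonneg_right (le_max_left _ _)
        (by positivity)))⟩
  · obtain ⟨C, hC⟩ := Pool.Agent.Y679.Cr.avg good
    refine ⟨max C 0 * K, fun f hf Z S hS => ?_⟩
    have h1 := sum_of hf (Z := Z) (K := K) (le_max_right C 0) (hK f hf Z) (X := ∅)
      (g := fun c => (rank c : ℝ)) (fun c => Nat.cast_nonneg _) (fun S' hS' => by
        rw [Set.sdiff_empty, Fam_eq] at hS'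
        rw [Fam_eq]
        exact (hC f (bdd hf) Z S' hS').trans
          (mul_le_mul_of_nonneg_right (le_max_left _ _) (Nat.cast_nonneg _)))
      S (by rw [Set.sdiff_empty]; exact hS)
    rwa [← hS, Set.ncard_coe_finset] at h1
  · obtain ⟨C1, hC1⟩ := Pool.Agent.Y679.Cr.mom good hθ0 hθ
    obtain ⟨C2, hC2⟩ := Pool.Agent.Y679.Cr.hi good hθ0 hθ
    refine ⟨max (max C1 C2) 0 * K, fun f hf Z => ⟨fun c hc k => ?_, fun k S hk hS => ?_,
      fun r => ?_⟩⟩
    · have hc' := Exact_sub f Z hc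
      rw [Fam_eq] at hc'
      exact (hX f (bdd hf)).2.1 c hc'.1 k
    · have h1 := sum_of hf (Z := Z) (K := K) (le_max_right (max C1 C2) 0) (hK f hf Z) (X := ∅)
        (g := fun c => weight k c ^ θ) (hw k θ) (fun S' hS' => by
          rw [Set.sdiff_empty, Fam_eq] at hS'
          rw [Fam_eq]
          exact (hC1 f (bdd hf) Z k hk S' hS').trans
            (mul_le_mul_of_nonneg_right ((le_max_left _ _).trans (le_max_left _ _))
              (Nat.cast_nonneg _)))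
        S (by rw [Set.sdiff_empty]; exact hS)
      rwa [← hS, Set.ncard_coe_finset] at h1
    · refine (prop_of hf hK0 (hK f hf Z) (High r)).trans ?_
      have h1 : ((Pool.Agent.Y679.Cr.Gm Pr f Z ∩ High r).ncard : ℝ) /
          (Pool.Agent.Y679.Cr.Gm Pr f Z).ncard ≤ max (max C1 C2) 0 * (2 : ℝ) ^ (-(θ * r)) := by
        refine div_le_of_le_mul₀ (Nat.cast_nonneg _) (by positivity)
          ((hC2 f (bdd hf) Z r).trans ?_)
        refine mul_le_mul_of_nonneg_right (mul_le_mul_of_nonneg_right ?_ (by positivity))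
          (Nat.cast_nonneg _)
        exact (le_max_right _ _).trans (le_max_left _ _)
      calc _ ≤ K * (max (max C1 C2) 0 * (2 : ℝ) ^ (-(θ * r))) :=
            mul_le_mul_of_nonneg_left h1 hK0
        _ = _ := by ring
  · obtain ⟨h1, -, h3, h4⟩ := hX f (bdd hf)
    have hpn : ∀ (S : Set (ℤ × ℤ)) (Z : ℕ), 0 ≤ proportion f S Z := fun S Z => by
      unfold proportion
      positivity
    refine ⟨?_, ?_, ?_⟩
    · have h5 := h1.const_mul K
      rw [mul_zero] at h5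
      exact squeeze_zero (hpn X) (fun Z => prop_of hf hK0 (hK f hf Z) X) h5
    · intro θ hθ
      obtain ⟨C, hC⟩ := h3 θ hθ
      refine ⟨max C 0 * K, fun Z k S hk hS => ?_⟩
      refine sum_of hf (Z := Z) (K := K) (le_max_right C 0) (hK f hf Z) (X := X)
        (g := fun c => weight k c ^ θ) (hw k θ) (fun S' hS' => ?_) S hS
      rw [Fam_eq] at hS' ⊢
      exact (hC Z k hk S' hS').trans
        (mul_le_mul_of_nonneg_right (le_max_left _ _) (Nat.cast_nonneg _))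
    · intro A
      set u : ℕ → ℕ → ℝ := fun r Z => ((Pool.Agent.Y679.Cr.Gm Pr f Z ∩
        Pool.Agent.Y679.Cr.Hi r).ncard : ℝ) / (Pool.Agent.Y679.Cr.Gm Pr f Z).ncard with hu
      have hu0 : ∀ r Z, 0 ≤ u r Z := fun r Z => by rw [hu]; positivity
      have hu1 : ∀ r Z, u r Z ≤ 1 := fun r Z => by
        rw [hu]
        refine div_le_one_of_le₀ ?_ (Nat.cast_nonneg _)
        exact_mod_cast Set.ncard_le_ncard Set.inter_subset_left
          (Pool.Agent.Y679.Cr.Gm_fin good (bdd hf) Z)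
      have hub : ∀ r, IsBoundedUnder (· ≤ ·) atTop (u r) := fun r =>
        isBoundedUnder_of ⟨1, hu1 r⟩
      have hle : ∀ r, limsup (proportion f (High r)) atTop ≤ K * limsup (u r) atTop := by
        intro r
        have hcob : IsCoboundedUnder (· ≤ ·) atTop (proportion f (High r)) :=
          (isBoundedUnder_of (r := (· ≥ ·)) ⟨0, hpn (High r)⟩).isCoboundedUnder_le
        refine le_of_forall_pos_le_add fun ε hε => ?_
        have hK1 : 0 < K + 1 := by linarith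
        have e1 : ∀ᶠ Z in atTop, u r Z < limsup (u r) atTop + ε / (K + 1) :=
          eventually_lt_of_limsup_lt (by
            have : 0 < ε / (K + 1) := by positivity
            linarith) (hub r)
        refine limsup_le_of_le hcob ?_
        filter_upwards [e1] with Z hZ
        have h6 : proportion f (High r) Z ≤ K * u r Z := prop_of hf hK0 (hK f hf Z) (High r)
        have h7 : K * u r Z ≤ K * (limsup (u r) atTop + ε / (K + 1)) :=
          mul_le_mul_of_nonneg_left hZ.le hK0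
        have h8 : K * (ε / (K + 1)) ≤ ε := by
          rw [mul_div_assoc', div_le_iff₀ hK1]
          nlinarith
        calc _ ≤ _ := h6
          _ ≤ _ := h7
          _ = K * limsup (u r) atTop + K * (ε / (K + 1)) := by ring
          _ ≤ _ := by linarith
      have h5 := (h4 |A|).const_mul K
      rw [mul_zero] at h5
      have hn : ∀ r, 0 ≤ limsup (proportion f (High r)) atTop := fun r => by
        refine le_limsup_of_frequently_le (Frequently.of_forall (hpn (High r))) ?_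
        refine isBoundedUnder_of ⟨1, fun Z => ?_⟩
        unfold proportion
        refine div_le_one_of_le₀ ?_ (Nat.cast_nonneg _)
        exact_mod_cast Set.ncard_le_ncard Set.inter_subset_left
          ((Fam_fin hf Z).subset (Exact_sub f Z))
      refine squeeze_zero_norm (fun r => ?_) h5
      rw [Real.norm_eq_abs, abs_mul, abs_pow, abs_of_nonneg (hn r)]
      calc |A| ^ r * limsup (proportion f (High r)) atTop
          ≤ |A| ^ r * (K * limsup (u r) atTop) :=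
            mul_le_mul_of_nonneg_left (hle r) (by positivity)
        _ = K * (|A| ^ r * limsup (u r) atTop) := by ring

end Pool.Agent.Results.MP_9e6228_nt.ExactTorsionByConductor
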