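import Mathlib
import Pool.Agent.Y667.RP.Disc
import Pool.Agent.Y667.SX.Main
import Pool.Agent.W672.FK.Lowf
import Pool.Agent.W307.RT.Tors
import Pool.Agent.X293.CO.ExD

/-!
# Ranks and Tate-Shafarevich groups of the elliptic curves with torsion group `Z/2 x Z/2`

All elliptic curves `E` over `ℚ` with torsion group `T = Z/2 x Z/2`, ordered by the conductor, by the
minimal discriminant or by the naive height. In each ordering they are almost all the curves with full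
rational 2-torsion. For every `r ≥ 0` a positive proportion of them has `rank + dim Ш(E)[2] = r` and
root number `(-1) ^ r`; so if the supremum `B(T)` of the ranks is finite, then for every `k` a positive
proportion of them has `dim Ш(E)[2] ≥ k`.
-/

set_option autoImplicit false

namespace Pool.Agent.Results.MP_9e6228_nt.ExactTorsionRankSha

open Finset Filter Topology

open Pool.Agent.TH841.SH.D (Sha)

/-- the curve `y² = x³ + A x + B` over `ℚ` -/
def E (A B : ℤ) : WeierstrassCurve ℚ := ⟨0, 0, 0, (A : ℚ), (B : ℚ)⟩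

/-- the absolute value of the minimal discriminant of an elliptic curve `W` over `ℚ`: the smallest
absolute value of the discriminant of a Weierstrass equation `V` with integer coefficients which is
isomorphic to `W` over `ℚ` -/
noncomputable def minDisc (W : WeierstrassCurve ℚ) : ℕ :=
  sInf {n : ℕ | ∃ (V : WeierstrassCurve ℤ) (C : WeierstrassCurve.VariableChange ℚ),
    C • W = V.map (Int.castRingHom ℚ) ∧ n = V.Δ.natAbs}

/-- the naive height of `y² = x³ + A x + B` is at most `Z` -/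
def HeightLe (c : ℤ × ℤ) (Z : ℕ) : Prop := 4 * |c.1| ^ 3 ≤ Z ∧ 27 * c.2 ^ 2 ≤ Z

/-- the minimal discriminant of `y² = x³ + A x + B` is at most `Z` in absolute value -/
def DiscLe (c : ℤ × ℤ) (Z : ℕ) : Prop := minDisc (E c.1 c.2) ≤ Z

/-- the prime-to-6 part of the conductor of `y² = x³ + A x + B` (there is no prime `p` with `p⁴ ∣ A`
and `p⁶ ∣ B`): the product over the primes `p ≥ 5` dividing `4 A³ + 27 B²` of `p` (multiplicative
reduction: `p ∤ A`) or `p²` (additive reduction: `p ∣ A`) -/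
def Cond6 (c : ℤ × ℤ) : ℕ :=
  ∏ p ∈ (Int.natAbs (4 * c.1 ^ 3 + 27 * c.2 ^ 2)).primeFactors.filter (fun p => 5 ≤ p),
    if (p : ℤ) ∣ c.1 then p ^ 2 else p

/-- the conductor is at most `Z`, where `f c` is the part of the conductor at the primes `2`
and `3` -/
def CondLe (f : ℤ × ℤ → ℕ) (c : ℤ × ℤ) (Z : ℕ) : Prop := f c * Cond6 c ≤ Z

/-- the three orderings: by the naive height, by the minimal discriminant, by the conductor (`f` may
be any function with values between `1` and `2 ^ 8 * 3 ^ 5`; the part of the conductor at the primes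
`2` and `3` is such a function) -/
def IsOrdering (I : ℤ × ℤ → ℕ → Prop) : Prop :=
  I = HeightLe ∨ I = DiscLe ∨
    ∃ f : ℤ × ℤ → ℕ, (∀ c, 1 ≤ f c ∧ f c ≤ 2 ^ 8 * 3 ^ 5) ∧ I = CondLe f

/-- The pairs `(A, B)` of integers such that `4 A³ + 27 B² ≠ 0`, there is no prime `p` with
`p⁴ ∣ A` and `p⁶ ∣ B`, `Z/2 x Z/2` embeds in the group of the rational points of
`y² = x³ + A x + B`, and the size is at most `Z`. Every elliptic curve over `ℚ` with full rational
2-torsion is isomorphic to `E A B` for exactly one pair with the first three properties. -/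
def Fam (I : ℤ × ℤ → ℕ → Prop) (Z : ℕ) : Set (ℤ × ℤ) :=
  {c : ℤ × ℤ | 4 * c.1 ^ 3 + 27 * c.2 ^ 2 ≠ 0 ∧
    (∀ p : ℕ, p.Prime → ¬ ((p : ℤ) ^ 4 ∣ c.1 ∧ (p : ℤ) ^ 6 ∣ c.2)) ∧
    (∃ f : ZMod 2 × ZMod 2 →+ (E c.1 c.2).toAffine.Point, Function.Injective f) ∧ I c Z}

/-- The curves of `Fam I Z` without a rational point of order 3 or 4. By Mazur's theorem these are
the elliptic curves over `ℚ` with torsion group `Z/2 x Z/2` (of size at most `Z`). -/
def Exact (I : ℤ × ℤ → ℕ → Prop) (Z : ℕ) : Set (ℤ × ℤ) :=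
  {c ∈ Fam I Z | ∀ Q : (E c.1 c.2).toAffine.Point, addOrderOf Q ≠ 3 ∧ addOrderOf Q ≠ 4}

/-- the proportion of the curves of `S` among the curves of size at most `Z` with torsion group
`Z/2 x Z/2` -/
noncomputable def proportion (I : ℤ × ℤ → ℕ → Prop) (S : Set (ℤ × ℤ)) (Z : ℕ) : ℝ :=
  ((Exact I Z ∩ S).ncard : ℝ) / (Exact I Z).ncard

/-- the Mordell-Weil rank -/
noncomputable def rank (c : ℤ × ℤ) : ℕ := Module.finrank ℤ (E c.1 c.2).toAffine.Point

/-- `a_p = p + 1 - #V(𝔽_p)`, that is `p` minus the number of the affine solutions of the Weierstrass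
equation modulo `p`; for a prime of multiplicative reduction this is `1` (split) or `-1`
(non-split) -/
noncomputable def ap (V : WeierstrassCurve ℤ) (p : ℕ) : ℤ :=
  p - Nat.card {z : ZMod p × ZMod p // z.2 ^ 2 + V.a₁ * z.1 * z.2 + V.a₃ * z.2 =
    z.1 ^ 3 + V.a₂ * z.1 ^ 2 + V.a₄ * z.1 + V.a₆}

/-- the equation with integer coefficients is nonsingular over `ℚ` and at every prime the reduction
is good or multiplicative (then it is a minimal equation) -/
def Semistable (V : WeierstrassCurve ℤ) : Prop :=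
  V.Δ ≠ 0 ∧ ∀ p : ℕ, p.Prime → (p : ℤ) ∣ V.Δ → ¬ (p : ℤ) ∣ V.c₄

/-- the conductor of a semistable curve -/
def conductor (V : WeierstrassCurve ℤ) : ℕ := ∏ p ∈ V.Δ.natAbs.primeFactors, p

/-- The root number of a semistable curve: the product of the local root numbers `-1` at infinity
and `-a_p` at the primes of bad (multiplicative) reduction. -/
noncomputable def wSemi (V : WeierstrassCurve ℤ) : ℤ :=
  -∏ p ∈ V.Δ.natAbs.primeFactors, (-ap V p)

/-- the quadratic twist by `d` of the curve `V` (the curve `y² = x³ + b₂ x² + 8 b₄ x + 16 b₆`) -/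
def twist (V : WeierstrassCurve ℤ) (d : ℕ) : WeierstrassCurve ℚ :=
  ⟨0, (d : ℚ) * V.b₂, 0, 8 * (d : ℚ) ^ 2 * V.b₄, 16 * (d : ℚ) ^ 3 * V.b₆⟩

/-- `w` is the root number of `W`, for the quadratic twists `W` of a semistable curve `V` of conductor
`N` by a positive fundamental discriminant `d ≡ 1` modulo `4` prime to `N` (`d = 1` allowed): it is
`χ_d(-N) w_V`, where `χ_d(-N) = χ_d(N)` is the Jacobi symbol `(N / d)` -/
def HasRootNumber (W : WeierstrassCurve ℚ) (w : ℤ) : Prop :=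
  ∃ (V : WeierstrassCurve ℤ) (d : ℕ), Semistable V ∧ Squarefree d ∧ d % 4 = 1 ∧
    d.Coprime V.Δ.natAbs ∧ (∃ C : WeierstrassCurve.VariableChange ℚ, C • W = twist V d) ∧
    w = jacobiSym (conductor V) d * wSemi V

/-- the curves with `rank + dim Ш(E)[2] = r`, that is `2 ^ rank * |Ш(E)[2]| = 2 ^ r`, and root number
`(-1) ^ r` -/
def RankSha (r : ℕ) : Set (ℤ × ℤ) :=
  {c | 2 ^ rank c * Nat.card {x : Sha (E c.1 c.2) // x + x = 0} = 2 ^ r ∧
    HasRootNumber (E c.1 c.2) ((-1) ^ r)}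

/-- the curves with `dim Ш(E)[2] ≥ k` -/
def LargeSha (k : ℕ) : Set (ℤ × ℤ) :=
  {c | Finite {x : Sha (E c.1 c.2) // x + x = 0} ∧
    2 ^ k ≤ Nat.card {x : Sha (E c.1 c.2) // x + x = 0}}

lemma FamH_eq (H : ℕ) : Fam HeightLe H = (Pool.Agent.W307.RT.Cv 2 H : Set (ℤ × ℤ)) := by
  classical
  ext c
  have h : Pool.Agent.W307.RT.HasT 2 (Pool.Agent.W307.RT.Sh c.1 c.2) ↔
    ∃ f : ZMod 2 × ZMod 2 →+ (E c.1 c.2).toAffine.Point, Function.Injective f :=
    Pool.Agent.W307.RT.tors_iff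
  unfold Fam HeightLe Pool.Agent.W307.RT.Cv
  rw [Set.mem_ofPred_eq, mem_coe, mem_filter, h, mem_product, mem_Icc, mem_Icc]
  constructor
  · rintro ⟨h1, h2, h3, h4, h5⟩
    refine ⟨⟨?_, ?_⟩, h1, h4, h5, h2, h3⟩
    · rw [← abs_le]
      have h0 := abs_nonneg c.1
      rcases eq_or_lt_of_le h0 with h6 | h6
      · rw [← h6]; positivity
      · have : 1 ≤ |c.1| := h6
        nlinarith [mul_nonneg h0 h0, mul_self_nonneg (|c.1| - 1)]
    · rw [← abs_le]
      have h0 := abs_nonneg c.2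
      rw [← sq_abs] at h5
      rcases eq_or_lt_of_le h0 with h6 | h6
      · rw [← h6]; positivity
      · have : 1 ≤ |c.2| := h6
        nlinarith
  · rintro ⟨-, h1, h4, h5, h2, h3⟩
    exact ⟨h1, h2, h3, h4, h5⟩

lemma FamD_eq (D : ℕ) : Fam DiscLe D = (Pool.Agent.TH344.DS.Dv D : Set (ℤ × ℤ)) := by
  classical
  have h0 : Fam DiscLe D = Pool.Agent.W307.RS.DvS 2 D := by
    ext c
    have h : Pool.Agent.W307.RT.HasT 2 (Pool.Agent.W307.RT.Sh c.1 c.2) ↔
        ∃ f : ZMod 2 × ZMod 2 →+ (E c.1 c.2).toAffine.Point, Function.Injective f :=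
      Pool.Agent.W307.RT.tors_iff
    unfold Fam Pool.Agent.W307.RS.DvS
    rw [Set.mem_ofPred_eq, Set.mem_ofPred_eq, h]
    exact Iff.rfl
  rw [h0]
  unfold Pool.Agent.TH344.DS.Dv
  rw [dif_pos (Pool.Agent.TH344.DS.excd.1 D), Set.Finite.coe_toFinset]

/-- The number of these curves tends to infinity (ordering by height). -/
lemma tendstoH : Tendsto (fun Z : ℕ => (Fam HeightLe Z).ncard) atTop atTop := by
  simp only [FamH_eq, Set.ncard_coe_finset]
  exact Pool.Agent.W307.RT.tendsto_of_low Pool.Agent.W672.FK.lowf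

/-- The number of these curves tends to infinity (ordering by the minimal discriminant). -/
lemma tendstoD : Tendsto (fun Z : ℕ => (Fam DiscLe Z).ncard) atTop atTop := by
  have h1 := Pool.Agent.W307.RT.tendsto_of_low Pool.Agent.W672.FK.lowf
  have h2 : Tendsto (fun D : ℕ => (Pool.Agent.W307.RT.Cv 2 (D / 32)).card) atTop atTop :=
    h1.comp (Nat.tendsto_div_const_atTop (by norm_num))
  obtain ⟨hD1, hD2, hD3⟩ := Pool.Agent.TH344.DS.excd
  refine tendsto_atTop_mono (fun D => ?_) h2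
  have h3 : (Pool.Agent.TH344.DS.Dv D : Set (ℤ × ℤ)) = Pool.Agent.W307.RS.DvS 2 D := by
    unfold Pool.Agent.TH344.DS.Dv
    rw [dif_pos (hD1 D), Set.Finite.coe_toFinset]
  rw [FamD_eq, h3, ← Set.ncard_coe_finset]
  exact Set.ncard_le_ncard (Pool.Agent.W307.RS.Cv_sub Pool.Agent.W554.RS.mdl 2 (D / 32) D
    (Nat.mul_div_le D 32)) (hD1 D)

/-- the property without the size -/
def Pr (c : ℤ × ℤ) : Prop := 4 * c.1 ^ 3 + 27 * c.2 ^ 2 ≠ 0 ∧
    (∀ p : ℕ, p.Prime → ¬ ((p : ℤ) ^ 4 ∣ c.1 ∧ (p : ℤ) ^ 6 ∣ c.2)) ∧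
    (∃ g : ZMod 2 × ZMod 2 →+ (E c.1 c.2).toAffine.Point, Function.Injective g)

lemma good : Pool.Agent.Y679.Cr.Good Pr := by
  classical
  refine ⟨fun c hc => ⟨?_, ?_⟩, fun H c hc => ?_, Pool.Agent.W672.FK.lowf⟩
  · exact Pool.Agent.Y679.Cr.isMin_of hc.1 hc.2.1
  · exact Pool.Agent.Y679.Cr.full_of (Pool.Agent.W307.RT.tors_iff.2 hc.2.2)
  · unfold Pool.Agent.W307.RT.Cv at hc
    obtain ⟨-, h1, -, -, h2, h3⟩ := mem_filter.1 hc
    exact ⟨h1, h2, Pool.Agent.W307.RT.tors_iff.1 h3⟩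

lemma cond_eq (c : ℤ × ℤ) : Pool.Agent.Y679.Cr.cs c = Cond6 c := by
  unfold Pool.Agent.Y679.Cr.cs Pool.Agent.H925R.Szpiro.condS Cond6
  rw [Pool.Agent.Y679.Cr.D_neg, Int.natAbs_neg]
  refine prod_congr rfl fun p _ => ?_
  by_cases h : (p : ℤ) ∣ c.1
  · rw [if_pos h, if_pos (Int.dvd_neg.2 h)]
  · rw [if_neg h, if_neg fun h' => h (Int.dvd_neg.1 h')]

lemma bdd {f : ℤ × ℤ → ℕ} (hf : ∀ c, 1 ≤ f c ∧ f c ≤ 2 ^ 8 * 3 ^ 5) : Pool.Agent.Y679.Cr.Bdd f :=
  fun c => ⟨(hf c).1, (hf c).2.trans (by norm_num)⟩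

lemma FamC_eq (f : ℤ × ℤ → ℕ) (Z : ℕ) : Fam (CondLe f) Z = Pool.Agent.Y679.Cr.Gm Pr f Z := by
  ext c
  unfold Fam CondLe Pool.Agent.Y679.Cr.Gm
  rw [Set.mem_ofPred_eq, Set.mem_ofPred_eq, cond_eq]
  exact ⟨fun h => ⟨⟨h.1, h.2.1, h.2.2.1⟩, h.2.2.2⟩, fun h => ⟨h.1.1, h.1.2.1, h.1.2.2, h.2⟩⟩

lemma rankSha_of {r : ℕ} {c : ℤ × ℤ} (hD : 4 * c.1 ^ 3 + 27 * c.2 ^ 2 ≠ 0)
    (hT : ∃ f : ZMod 2 × ZMod 2 →+ (E c.1 c.2).toAffine.Point, Function.Injective f)
    (h : Pool.Agent.Y667.PA.TPR r c) : c ∈ RankSha r := by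
  have hT' := Pool.Agent.W307.RT.tors_iff.2 hT
  obtain ⟨-, ⟨-, h2⟩, -⟩ := Pool.Agent.Y667.SX.sx_of hD hT' h.1 h.2.1
  exact ⟨h2, h.2.2.1⟩

lemma Exact_sub (I : ℤ × ℤ → ℕ → Prop) (Z : ℕ) : Exact I Z ⊆ Fam I Z := fun _ h => h.1

lemma large_of {I : ℤ × ℤ → ℕ → Prop} {Z B k : ℕ} (hfin : (Exact I Z).Finite)
    (hB : ∀ c ∈ Exact I Z, rank c ≤ B) :
    proportion I (RankSha (B + k)) Z ≤ proportion I (LargeSha k) Z := by
  unfold proportion
  refine div_le_div_of_nonneg_right (Nat.cast_le.2 (Set.ncard_le_ncard ?_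
    (hfin.subset Set.inter_subset_left))) (Nat.cast_nonneg _)
  rintro c ⟨hc, h1, -⟩
  refine ⟨hc, ?_, ?_⟩
  · apply Nat.finite_of_card_ne_zero
    intro h0
    rw [h0, mul_zero] at h1
    exact (pow_ne_zero (B + k) (by norm_num : (2 : ℕ) ≠ 0)) h1.symm
  · have h2 : (2 : ℕ) ^ rank c ≤ 2 ^ B := Nat.pow_le_pow_right (by norm_num) (hB c hc)
    have h3 : 2 ^ B * 2 ^ k ≤ 2 ^ B * Nat.card {x : Sha (E c.1 c.2) // x + x = 0} := by
      rw [← pow_add, ← h1]
      exact Nat.mul_le_mul_right _ h2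
    exact Nat.le_of_mul_le_mul_left h3 (by positivity)

/-- the curves with the wanted invariants -/
def Wt (r : ℕ) : Set (ℤ × ℤ) := {k | Pool.Agent.Y667.PA.TPR r k ∧ Pool.Agent.Y294.ET.No34 k}

/-- from the counts to the theorem -/
lemma final {I : ℤ × ℤ → ℕ → Prop} (hfin : ∀ Z : ℕ, (Fam I Z).Finite)
    (htend : Tendsto (fun Z : ℕ => (Fam I Z).ncard) atTop atTop)
    (hfew : ∀ ε : ℝ, 0 < ε → ∀ᶠ Z : ℕ in atTop,
      ((Fam I Z ∩ {k | ¬ Pool.Agent.Y294.ET.No34 k}).ncard : ℝ) ≤ ε * (Fam I Z).ncard)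
    (hpos : ∀ r : ℕ, ∃ δ : ℝ, 0 < δ ∧ ∀ᶠ Z : ℕ in atTop,
      δ ≤ ((Fam I Z ∩ Wt r).ncard : ℝ) / (Fam I Z).ncard) :
    (∀ Z : ℕ, (Fam I Z).Finite) ∧
    Tendsto (fun Z : ℕ => (Exact I Z).ncard) atTop atTop ∧
    Tendsto (fun Z : ℕ => ((Exact I Z).ncard : ℝ) / (Fam I Z).ncard) atTop (𝓝 1) ∧
    (∀ r : ℕ, ∃ δ : ℝ, 0 < δ ∧ ∀ᶠ Z : ℕ in atTop, δ ≤ proportion I (RankSha r) Z) ∧
    ∀ B : ℕ, (∀ Z : ℕ, ∀ c ∈ Exact I Z, rank c ≤ B) →
      ∀ k : ℕ, ∃ δ : ℝ, 0 < δ ∧ ∀ᶠ Z : ℕ in atTop, δ ≤ proportion I (LargeSha k) Z := by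
  have hE : ∀ Z, (Exact I Z).Finite := fun Z => (hfin Z).subset (Exact_sub I Z)
  have hsum : ∀ Z, ((Fam I Z).ncard : ℝ) =
      (Exact I Z).ncard + (Fam I Z ∩ {k | ¬ Pool.Agent.Y294.ET.No34 k}).ncard := by
    intro Z
    have h1 := Set.ncard_sdiff_add_ncard_of_subset (Exact_sub I Z) (hfin Z)
    have h2 : Fam I Z \ Exact I Z = Fam I Z ∩ {k | ¬ Pool.Agent.Y294.ET.No34 k} := by
      ext c
      exact ⟨fun h => ⟨h.1, fun h' => h.2 ⟨h.1, h'⟩⟩, fun h => ⟨h.1, fun h' => h.2 h'.2⟩⟩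
    rw [h2] at h1
    have h3 : (((Fam I Z ∩ {k | ¬ Pool.Agent.Y294.ET.No34 k}).ncard : ℕ) : ℝ) +
        (Exact I Z).ncard = (Fam I Z).ncard := by exact_mod_cast h1
    linarith
  have hF1 : ∀ᶠ Z : ℕ in atTop, (1 : ℝ) ≤ (Fam I Z).ncard := by
    filter_upwards [htend.eventually_ge_atTop 1] with Z hZ
    exact_mod_cast hZ
  have hmost : ∀ ε : ℝ, 0 < ε → ∀ᶠ Z : ℕ in atTop,
      (1 - ε) * ((Fam I Z).ncard : ℝ) ≤ (Exact I Z).ncard := by
    intro ε hε
    filter_upwards [hfew ε hε] with Z hZ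
    have := hsum Z
    linarith
  have hle : ∀ Z, ((Exact I Z).ncard : ℝ) ≤ (Fam I Z).ncard := fun Z => by
    have := hsum Z
    have h2 : (0 : ℝ) ≤ (Fam I Z ∩ {k | ¬ Pool.Agent.Y294.ET.No34 k}).ncard := Nat.cast_nonneg _
    linarith
  have h3 : ∀ r : ℕ, ∃ δ : ℝ, 0 < δ ∧ ∀ᶠ Z : ℕ in atTop, δ ≤ proportion I (RankSha r) Z := by
    intro r
    obtain ⟨δ, hδ, h⟩ := hpos r
    refine ⟨δ, hδ, ?_⟩
    filter_upwards [h, hF1, hmost (1 / 2) (by norm_num)] with Z h1 h2 h4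
    have hFp : (0 : ℝ) < (Fam I Z).ncard := by linarith
    have hEp : (0 : ℝ) < (Exact I Z).ncard := by linarith
    unfold proportion
    rw [le_div_iff₀ hEp]
    rw [le_div_iff₀ hFp] at h1
    have h5 : ((Fam I Z ∩ Wt r).ncard : ℝ) ≤ (Exact I Z ∩ RankSha r).ncard := by
      have h6 : (Fam I Z ∩ Wt r).ncard ≤ (Exact I Z ∩ RankSha r).ncard := by
        refine Set.ncard_le_ncard ?_ ((hE Z).subset Set.inter_subset_left)
        rintro k ⟨k1, k2, k3⟩
        exact ⟨⟨k1, k3⟩, rankSha_of k1.1 k1.2.2.1 k2⟩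
      exact_mod_cast h6
    calc δ * ((Exact I Z).ncard : ℝ) ≤ δ * (Fam I Z).ncard :=
          mul_le_mul_of_nonneg_left (hle Z) hδ.le
      _ ≤ _ := h1.trans h5
  refine ⟨hfin, ?_, ?_, h3, fun B hB k => ?_⟩
  · rw [tendsto_atTop]
    intro b
    filter_upwards [htend.eventually_ge_atTop (2 * b), hmost (1 / 2) (by norm_num)] with Z h1 h2
    have h4 : (2 * b : ℝ) ≤ (Fam I Z).ncard := by exact_mod_cast h1
    have h5 : (b : ℝ) ≤ (Exact I Z).ncard := by linarith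
    exact_mod_cast h5
  · rw [Metric.tendsto_atTop']
    intro ε hε
    obtain ⟨N, hN⟩ := eventually_atTop.1 (hF1.and (hmost (ε / 2) (by positivity)))
    refine ⟨N, fun Z hZ => ?_⟩
    obtain ⟨h1, h2⟩ := hN Z hZ.le
    have hFp : (0 : ℝ) < (Fam I Z).ncard := by linarith
    have a3 : ((Exact I Z).ncard : ℝ) / (Fam I Z).ncard ≤ 1 := div_le_one_of_le₀ (hle Z) hFp.le
    have a4 : 1 - ε < ((Exact I Z).ncard : ℝ) / (Fam I Z).ncard := by
      rw [lt_div_iff₀ hFp]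
      nlinarith
    rw [Real.dist_eq, abs_lt]
    constructor <;> linarith
  · obtain ⟨δ, hδ, h⟩ := h3 (B + k)
    refine ⟨δ, hδ, ?_⟩
    filter_upwards [h] with Z hZ
    exact hZ.trans (large_of (hE Z) (hB Z))

lemma goodT (c : ℤ × ℤ) (hc : Pr c) : 4 * c.1 ^ 3 + 27 * c.2 ^ 2 ≠ 0 ∧
      (∀ p : ℕ, p.Prime → ¬ ((p : ℤ) ^ 4 ∣ c.1 ∧ (p : ℤ) ^ 6 ∣ c.2)) ∧
      Pool.Agent.W307.RT.HasT 2 (Pool.Agent.W307.RT.Sh c.1 c.2) :=
  ⟨hc.1, hc.2.1, Pool.Agent.W307.RT.tors_iff.2 hc.2.2⟩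

/-- **Theorem.** For each of the three orderings (naive height, minimal discriminant, conductor) of
the elliptic curves over `ℚ` with full rational 2-torsion:
(1) there are finitely many curves of size at most `Z`;
(2) the number of those with torsion group `T = Z/2 x Z/2` tends to infinity with `Z`, and their
proportion among the curves with full rational 2-torsion tends to one;
(3) for every `r ≥ 0` a positive proportion of the curves with torsion group `T` has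
`rank + dim Ш(E)[2] = r` and root number `(-1) ^ r`;
(4) if all the curves with torsion group `T` have rank at most `B`, then for every `k` a positive
proportion of them has `dim Ш(E)[2] ≥ k`. -/
theorem result : ∀ I : ℤ × ℤ → ℕ → Prop, IsOrdering I →
    (∀ Z : ℕ, (Fam I Z).Finite) ∧
    Tendsto (fun Z : ℕ => (Exact I Z).ncard) atTop atTop ∧
    Tendsto (fun Z : ℕ => ((Exact I Z).ncard : ℝ) / (Fam I Z).ncard) atTop (𝓝 1) ∧
    (∀ r : ℕ, ∃ δ : ℝ, 0 < δ ∧ ∀ᶠ Z : ℕ in atTop, δ ≤ proportion I (RankSha r) Z) ∧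
    ∀ B : ℕ, (∀ Z : ℕ, ∀ c ∈ Exact I Z, rank c ≤ B) →
      ∀ k : ℕ, ∃ δ : ℝ, 0 < δ ∧ ∀ᶠ Z : ℕ in atTop, δ ≤ proportion I (LargeSha k) Z := by
  classical
  intro I hI
  rcases hI with rfl | rfl | ⟨f, hf, rfl⟩
  · refine final (fun Z => ?_) tendstoH (fun ε hε => ?_) fun r => ?_
    · rw [FamH_eq]
      exact finite_toSet _
    · obtain ⟨H0, h0⟩ := Pool.Agent.Y294.ET.few34 ε hε
      filter_upwards [eventually_ge_atTop H0] with H hH
      have a0 := h0 H hH
      have a1 : (Fam HeightLe H ∩ {k | ¬ Pool.Agent.Y294.ET.No34 k}).ncard =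
          ((Pool.Agent.W307.RT.Cv 2 H).filter (fun k => ¬ Pool.Agent.Y294.ET.No34 k)).card := by
        rw [FamH_eq, ← Set.ncard_coe_finset]
        congr 1
        ext k
        simp
      have a2 : (Fam HeightLe H).ncard = (Pool.Agent.W307.RT.Cv 2 H).card := by
        rw [FamH_eq, Set.ncard_coe_finset]
      have a3 : (Pool.Agent.Y294.ET.G34 H).card +
          ((Pool.Agent.W307.RT.Cv 2 H).filter (fun k => ¬ Pool.Agent.Y294.ET.No34 k)).card =
          (Pool.Agent.W307.RT.Cv 2 H).card := by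
        unfold Pool.Agent.Y294.ET.G34
        exact card_filter_add_card_filter_not _
      have a4 : ((Pool.Agent.Y294.ET.G34 H).card : ℝ) +
          ((Pool.Agent.W307.RT.Cv 2 H).filter (fun k => ¬ Pool.Agent.Y294.ET.No34 k)).card =
          (Pool.Agent.W307.RT.Cv 2 H).card := by exact_mod_cast a3
      rw [a1, a2]
      linarith
    · obtain ⟨c, hc, H0, h⟩ := Pool.Agent.X293.CO.posH r
      refine ⟨c, hc, ?_⟩
      filter_upwards [eventually_ge_atTop H0, tendstoH.eventually_ge_atTop 1] with H hH hH1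
      have a0 := h H hH
      rw [le_div_iff₀ (by exact_mod_cast hH1)]
      have a1 : (Fam HeightLe H ∩ Wt r).ncard = ((Pool.Agent.W307.RT.Cv 2 H).filter
          (fun k => Pool.Agent.Y667.PA.TPR r k ∧ Pool.Agent.Y294.ET.No34 k)).card := by
        rw [FamH_eq, ← Set.ncard_coe_finset]
        congr 1
        ext k
        simp [Wt]
      have a2 : (Fam HeightLe H).ncard = (Pool.Agent.W307.RT.Cv 2 H).card := by
        rw [FamH_eq, Set.ncard_coe_finset]
      rw [a1, a2]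
      exact a0
  · refine final (fun Z => ?_) tendstoD (fun ε hε => ?_) fun r => ?_
    · rw [FamD_eq]
      exact finite_toSet _
    · obtain ⟨D0, h0⟩ := Pool.Agent.X293.CO.fewD hε
      filter_upwards [eventually_ge_atTop D0] with D hD
      have a0 := (h0 D hD).2
        ((Pool.Agent.TH344.DS.Dv D).filter (fun k => ¬ Pool.Agent.Y294.ET.No34 k))
        (filter_subset _ _) (fun k hk => (mem_filter.1 hk).2)
      have a1 : (Fam DiscLe D ∩ {k | ¬ Pool.Agent.Y294.ET.No34 k}).ncard =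
          ((Pool.Agent.TH344.DS.Dv D).filter (fun k => ¬ Pool.Agent.Y294.ET.No34 k)).card := by
        rw [FamD_eq, ← Set.ncard_coe_finset]
        congr 1
        ext k
        simp
      have a2 : (Fam DiscLe D).ncard = (Pool.Agent.TH344.DS.Dv D).card := by
        rw [FamD_eq, Set.ncard_coe_finset]
      rw [a1, a2]
      exact a0
    · obtain ⟨c, hc, D0, h⟩ := Pool.Agent.Y667.RP.disc_of_height _ (Pool.Agent.X293.CO.posH r)
      refine ⟨c, hc, ?_⟩
      filter_upwards [eventually_ge_atTop D0, tendstoD.eventually_ge_atTop 1] with D hD hD1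
      have a0 := h D hD
      rw [le_div_iff₀ (by exact_mod_cast hD1)]
      have a1 : (Fam DiscLe D ∩ Wt r).ncard = ((Pool.Agent.TH344.DS.Dv D).filter
          (fun k => Pool.Agent.Y667.PA.TPR r k ∧ Pool.Agent.Y294.ET.No34 k)).card := by
        rw [FamD_eq, ← Set.ncard_coe_finset]
        congr 1
        ext k
        simp [Wt]
      have a2 : (Fam DiscLe D).ncard = (Pool.Agent.TH344.DS.Dv D).card := by
        rw [FamD_eq, Set.ncard_coe_finset]
      rw [a1, a2]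
      exact a0
  · refine final (fun Z => ?_) ?_ (fun ε hε => ?_) fun r => ?_
    · rw [FamC_eq]
      exact Pool.Agent.Y679.Cr.Gm_fin good (bdd hf) Z
    · simp only [FamC_eq]
      exact Pool.Agent.Y679.Cr.Gm_tendsto good (bdd hf)
    · obtain ⟨Z0, h0⟩ := Pool.Agent.X293.CO.few_eps good goodT hε
      filter_upwards [eventually_ge_atTop Z0] with Z hZ
      rw [FamC_eq]
      exact (h0 f (bdd hf) Z hZ).2
    · obtain ⟨δ, hδ, h⟩ := Pool.Agent.Y679.Cr.pos good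
        (T := fun k => Pool.Agent.Y667.PA.TPR r k ∧ Pool.Agent.Y294.ET.No34 k) (by
        obtain ⟨c, hc, H0, h⟩ := Pool.Agent.X293.CO.posH r
        refine ⟨c, hc, H0, fun H hH => ⟨_, fun k hk => ?_, h H hH⟩⟩
        exact mem_filter.1 (mem_coe.1 hk))
      refine ⟨δ, hδ, ?_⟩
      filter_upwards [h f (bdd hf)] with Z hZ
      rw [FamC_eq]
      exact hZ

end Pool.Agent.Results.MP_9e6228_nt.ExactTorsionRankSha
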