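import Pool.Agent.Results.MP_788af2_nt.RationalApproximations
import Pool.Agent.X257.AE.BoxTails
import Pool.Agent.X257.AE.Tors26
import Pool.Agent.TH344.SG.Cor
import Pool.Agent.TH344.DT.Tor

/-!
# The ranks of the curves with torsion group `Z/2 x Z/6` at the good rational approximations

The elliptic curves over `ℚ` with torsion group `Z/2 x Z/6` are the fibres
`E_t : y² = x (x + u³ (u + 2 v)) (x + v³ (2 u + v))`, `t = u / v` in lowest terms, of an elliptic surface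
over the projective line. We show: for almost every real number `α`, for every `A`, for all large `r`,
the rational numbers `t = u / v` with `|α - t| ≤ c / v²` (for `c = 1`: among them all the convergents of
the continued fraction of `α`) for which the rank of `E_t` (plus the corank of the 2-primary part of the
Tate-Shafarevich group) is at least `r` are rare: the sum of `1 / log v` over these `t` with `v ≤ Q` is
at most `A ^ (-r) log log Q` for all large `Q`. The same is shown for all the elliptic surfaces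
`y² = x (x - F_0 (u, v)) (x - F_1 (u, v))`, the binary forms `F_0`, `F_1`, `F_0 - F_1` products of odd
powers of pairwise non-proportional linear forms, with one exceptional null set of `α`.
-/

set_option autoImplicit false

namespace Pool.Agent.Results.MP_9e6228_nt.RankTailsAtApproximations

open Finset Filter MeasureTheory

open Pool.Agent.TH344.SH Pool.Agent.TH344.SG

open Pool.Agent.Results.MP_788af2_nt.RationalApproximations (E Surface Approx finite_approx)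

open scoped Classical in
/-- The corank of the 2-primary part of `Ш(W / ℚ)`: the largest `t` such that `(ℤ / 2 ^ n) ^ t` embeds
in `Ш(W / ℚ)` for all `n`. -/
noncomputable def corank (W : WeierstrassCurve ℚ) : ℕ := corank2 (Sha W)

/-- The rational numbers `t` with denominator `2 ≤ v ≤ Q` and `|α - t| ≤ c / v²` at which the fibre is
an elliptic curve and the sum of its rank and its corank is at least `r`. -/
def High (S : Surface) (r : ℕ) (α : ℝ) (c Q : ℕ) : Set ℚ :=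
  {t | t ∈ Approx α c Q ∧ S.Smooth t ∧ r ≤ S.rank t + corank (S.fib t)}

/-- The universal elliptic curve with a subgroup `Z/2 x Z/6`: `F_0 = -u³ (u + 2 v)`,
`F_1 = -v³ (2 u + v)`, `F_0 - F_1 = -(u - v) (u + v)³`. -/
def S26 : Surface where
  n := 2
  l := fun j => ![![(1, 0), (1, 2)], ![(0, 1), (2, 1)], ![(1, -1), (1, 1)]] j.1 j.2
  m := fun j => ![![3, 1], ![3, 1], ![1, 3]] j.1 j.2
  a := fun _ => -1

/-! ### Proof -/

theorem S26_F0 (u v : ℤ) : S26.F 0 u v = -(u ^ 3 * (u + 2 * v)) := by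
  change (-1 : ℤ) * ∏ i : Fin 2, _ = _
  rw [Fin.prod_univ_two]
  simp [S26]

theorem S26_F1 (u v : ℤ) : S26.F 1 u v = -(v ^ 3 * (2 * u + v)) := by
  change (-1 : ℤ) * ∏ i : Fin 2, _ = _
  rw [Fin.prod_univ_two]
  simp [S26]

theorem S26_F2 (u v : ℤ) : S26.F 2 u v = -((u - v) * (u + v) ^ 3) := by
  change (-1 : ℤ) * ∏ i : Fin 2, _ = _
  rw [Fin.prod_univ_two]
  simp [S26]
  left
  ring

theorem S26_ok : S26.Ok where
  even := by decide
  odd := by
    change ∀ j : Fin 3 × Fin 2, Odd ((![![3, 1], ![3, 1], ![1, 3]] : Fin 3 → Fin 2 → ℕ) j.1 j.2)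
    decide
  a_ne := fun k => by
    change (-1 : ℤ) ≠ 0
    norm_num
  not_prop := by
    change ∀ i j : Fin 3 × Fin 2, i ≠ j →
      ((![![(1, 0), (1, 2)], ![(0, 1), (2, 1)], ![(1, -1), (1, 1)]] : Fin 3 → Fin 2 → ℤ × ℤ)
        i.1 i.2).1 *
      ((![![(1, 0), (1, 2)], ![(0, 1), (2, 1)], ![(1, -1), (1, 1)]] : Fin 3 → Fin 2 → ℤ × ℤ)
        j.1 j.2).2 ≠
      ((![![(1, 0), (1, 2)], ![(0, 1), (2, 1)], ![(1, -1), (1, 1)]] : Fin 3 → Fin 2 → ℤ × ℤ)
        j.1 j.2).1 *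
      ((![![(1, 0), (1, 2)], ![(0, 1), (2, 1)], ![(1, -1), (1, 1)]] : Fin 3 → Fin 2 → ℤ × ℤ)
        i.1 i.2).2
    decide
  sub := fun u v => by
    rw [S26_F0, S26_F1, S26_F2]
    ring

theorem S26_tors (t : ℚ) (ht : S26.Smooth t) :
    ∃ f : ZMod 2 × ZMod 6 →+ (S26.fib t).toAffine.Point, Function.Injective f := by
  have h := Pool.Agent.X257.AE.T26.tors26 (a := t.num) (b := t.den) (A := S26.F 0 t.num t.den)
    (B := S26.F 1 t.num t.den) (S26_F0 _ _) (S26_F1 _ _) (ht 0) (ht 1) (fun h => by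
      apply ht 2
      rw [← S26_ok.sub, h, sub_self])
  exact h

/-- the family -/
def famS (S : Surface) (hS : S.Ok) (h0 : 0 < S.n) : Pool.Agent.TH344.BF.Fam S.n :=
  ⟨S.l, S.m, S.a, h0, hS.even, hS.odd, hS.a_ne, hS.not_prop, hS.sub⟩

theorem two_pow_le {A B : ℤ} (hA : A ≠ 0) (hB : B ≠ 0) (hAB : A ≠ B) :
    2 ^ (Module.finrank ℤ (E A B).toAffine.Point + corank (E A B)) ≤
      (Pool.Agent.W307.SE.Sel A B).ncard := by
  classical
  obtain ⟨h4, h5⟩ := Pool.Agent.TH344.SG.sha_sel A B hA hB hAB (E A B) rfl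
    (Pool.Agent.W701.FK.sel_fin' hA hB hAB)
  have h8 := corank2_le (G := Sha (E A B)) (n := 1) le_rfl (by rw [pow_one]; exact h4)
  rw [pow_one] at h8
  rw [pow_add]
  exact (Nat.mul_le_mul_left _ h8).trans h5

open Pool.Agent.TH344.BF Pool.Agent.TH344.DT Pool.Agent.W307.RT in
/-- one fibre -/
theorem one_le {S : Surface} (hS : S.Ok) {k : ℕ} {T : Finset (Fin 3 × Fin S.n → ℝ)}
    {t : ℚ} (ht : S.Smooth t) {r : ℕ} (hr : r ≤ S.rank t + corank (S.fib t)) :
    1 ≤ Pool.Agent.X257.AE.indP {t : ℤ × ℤ | (∀ j, fv (fun j => (S.l j).1) (fun j => (S.l j).2)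
        t.1 t.2 j ≠ 0) ∧ rho T (omB (fun j => (S.l j).1) (fun j => (S.l j).2) t) < 1}
        (Pool.Agent.X257.AE.nd t) +
      1 / ((2 : ℝ) ^ k) ^ r * Real.sqrt (WBl S.l S.m S.a (2 * k) T (Pool.Agent.X257.AE.nd t)) := by
  classical
  have h0 : ∀ j, (S.l j).1 * t.num + (S.l j).2 * (t.den : ℤ) ≠ 0 := by
    intro j hj
    apply ht j.1
    unfold Surface.F
    apply mul_eq_zero_of_right
    apply prod_eq_zero (mem_univ j.2)
    have h1 : ((S.l (j.1, j.2)).1 * t.num + (S.l (j.1, j.2)).2 * (t.den : ℤ)) = 0 := hj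
    rw [h1]
    exact zero_pow (hS.odd _).pos.ne'
  have hcop : IsCoprime t.num (t.den : ℤ) := by
    rw [Int.isCoprime_iff_gcd_eq_one]
    exact t.reduced
  by_cases hrho : rho T (omB (fun j => (S.l j).1) (fun j => (S.l j).2)
      (Pool.Agent.X257.AE.nd t)) < 1
  · have h1 : Pool.Agent.X257.AE.indP {t : ℤ × ℤ | (∀ j, fv (fun j => (S.l j).1)
        (fun j => (S.l j).2) t.1 t.2 j ≠ 0) ∧
        rho T (omB (fun j => (S.l j).1) (fun j => (S.l j).2) t) < 1}
        (Pool.Agent.X257.AE.nd t) = 1 := by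
      unfold Pool.Agent.X257.AE.indP
      rw [if_pos]
      exact ⟨h0, hrho⟩
    rw [h1]
    have : 0 ≤ 1 / ((2 : ℝ) ^ k) ^ r *
      Real.sqrt (WBl S.l S.m S.a (2 * k) T (Pool.Agent.X257.AE.nd t)) := by positivity
    linarith
  · have h3 : rho T (omB (fun j => (S.l j).1) (fun j => (S.l j).2)
        (Pool.Agent.X257.AE.nd t)) = 1 := le_antisymm (rho_le_one _ _) (not_lt.1 hrho)
    have h4 : WBl S.l S.m S.a (2 * k) T (Pool.Agent.X257.AE.nd t) =
        (((Pool.Agent.W307.SE.Sel (S.F 0 t.num t.den) (S.F 1 t.num t.den)).ncard : ℝ) ^ k) ^ 2 := by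
      unfold WBl
      rw [if_pos ⟨hcop, h0⟩, h3, mul_one, ← pow_mul, mul_comm k 2]
      rfl
    rw [h4, Real.sqrt_sq (by positivity)]
    have hne : S.F 0 t.num t.den ≠ S.F 1 t.num t.den := by
      intro h
      apply ht 2
      rw [← hS.sub, h, sub_self]
    have h5 := two_pow_le (ht 0) (ht 1) hne
    have h6 : S.rank t = Module.finrank ℤ (S.fib t).toAffine.Point := by
      unfold Surface.rank
      rw [if_pos ht]
    have h7 : 2 ^ r ≤ (Pool.Agent.W307.SE.Sel (S.F 0 t.num t.den) (S.F 1 t.num t.den)).ncard := by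
      rw [h6] at hr
      exact (Nat.pow_le_pow_right (by norm_num) hr).trans h5
    have h8 : ((2 : ℝ) ^ k) ^ r ≤
        ((Pool.Agent.W307.SE.Sel (S.F 0 t.num t.den) (S.F 1 t.num t.den)).ncard : ℝ) ^ k := by
      rw [← pow_mul, mul_comm k r, pow_mul]
      exact pow_le_pow_left₀ (by positivity) (by exact_mod_cast h7) k
    have h9 : 1 ≤ 1 / ((2 : ℝ) ^ k) ^ r *
        ((Pool.Agent.W307.SE.Sel (S.F 0 t.num t.den) (S.F 1 t.num t.den)).ncard : ℝ) ^ k := by
      rw [one_div, inv_mul_eq_div, le_div_iff₀ (by positivity), one_mul]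
      exact h8
    have h10 := Pool.Agent.X257.AE.indP_nonneg {t : ℤ × ℤ | (∀ j, fv (fun j => (S.l j).1)
        (fun j => (S.l j).2) t.1 t.2 j ≠ 0) ∧
        rho T (omB (fun j => (S.l j).1) (fun j => (S.l j).2) t) < 1} (Pool.Agent.X257.AE.nd t)
    linarith

theorem exR (S : Surface) (A c : ℕ) (K : ℤ) : ∃ r₀ : ℕ, S.Ok → 0 < S.n → 1 ≤ A → ∀ᵐ α : ℝ,
    α ∈ Set.Ico (K : ℝ) (K + 1) → ∀ r : ℕ, r₀ ≤ r → ∀ᶠ Q : ℕ in atTop,
      ∑ᶠ t ∈ High S r α c Q, 1 / Real.log t.den ≤ 1 / (A : ℝ) ^ r * Real.log (Real.log Q) := by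
  classical
  by_cases h : S.Ok ∧ 0 < S.n ∧ 1 ≤ A
  swap
  · exact ⟨0, fun h1 h2 h3 => absurd ⟨h1, h2, h3⟩ h⟩
  obtain ⟨hS, h0, hA⟩ := h
  obtain ⟨T, hT1, hT2, C, hC0, hC⟩ := Pool.Agent.X257.AE.BT.box_w (famS S hS h0)
    (k := 2 * A) (by omega)
  obtain ⟨D, hD0, hD⟩ := Pool.Agent.X257.AE.ae_ap
    (fun t => Pool.Agent.TH344.BF.WBl_nonneg _ _ _ _ hT1 t) hC0 hC K c
  have hZ := Pool.Agent.X257.AE.ae_ap_zero (fun ε hε => Pool.Agent.X257.AE.BT.bad_sq
    (fun j => (S.l j).1) (fun j => (S.l j).2)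
    (fun j => Pool.Agent.TH344.BF.not_both (famS S hS h0) j) T hT1 hT2 ε hε) c
  refine ⟨⌈2 * D⌉₊, fun _ _ _ => ?_⟩
  filter_upwards [hD, hZ] with α h1 h2 hK r hr
  obtain ⟨h3, -⟩ := h1 hK
  have hA0 : (0 : ℝ) < A := by
    have : 0 < A := hA
    exact_mod_cast this
  have hll : ∀ᶠ Q : ℕ in atTop, 0 ≤ Real.log (Real.log (Q : ℝ)) :=
    (Real.tendsto_log_atTop.comp
      (Real.tendsto_log_atTop.comp tendsto_natCast_atTop_atTop)).eventually_ge_atTop 0
  filter_upwards [h3, h2 (1 / 2 * (1 / (A : ℝ) ^ r)) (by positivity), hll] with Q h4 h5 hQ0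
  have hfin : (Approx α c Q).Finite := finite_approx α c Q
  have hsub : High S r α c Q ⊆ Approx α c Q := fun t ht => ht.1
  have hfin' := hfin.subset hsub
  have h4' : ∑ᶠ t ∈ Approx α c Q, Real.sqrt (Pool.Agent.TH344.BF.WBl S.l S.m S.a (2 * A) T
      (Pool.Agent.X257.AE.nd t)) / Real.log t.den ≤ D * Real.log (Real.log Q) := h4
  have h5' : ∑ᶠ t ∈ Approx α c Q, Pool.Agent.X257.AE.indP {t : ℤ × ℤ |
      (∀ j, Pool.Agent.W307.RT.fv (fun j => (S.l j).1) (fun j => (S.l j).2) t.1 t.2 j ≠ 0) ∧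
      Pool.Agent.TH344.DT.rho T (Pool.Agent.TH344.BF.omB (fun j => (S.l j).1)
        (fun j => (S.l j).2) t) < 1} (Pool.Agent.X257.AE.nd t) / Real.log t.den ≤
      1 / 2 * (1 / (A : ℝ) ^ r) * Real.log (Real.log Q) := h5
  rw [finsum_mem_eq_finite_toFinset_sum _ hfin] at h4' h5'
  rw [finsum_mem_eq_finite_toFinset_sum _ hfin']
  have h6 : ∑ t ∈ hfin'.toFinset, 1 / Real.log (t.den : ℝ) ≤
      ∑ t ∈ hfin.toFinset, (Pool.Agent.X257.AE.indP {t : ℤ × ℤ |
      (∀ j, Pool.Agent.W307.RT.fv (fun j => (S.l j).1) (fun j => (S.l j).2) t.1 t.2 j ≠ 0) ∧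
      Pool.Agent.TH344.DT.rho T (Pool.Agent.TH344.BF.omB (fun j => (S.l j).1)
        (fun j => (S.l j).2) t) < 1} (Pool.Agent.X257.AE.nd t) / Real.log t.den +
      1 / ((2 : ℝ) ^ A) ^ r * (Real.sqrt (Pool.Agent.TH344.BF.WBl S.l S.m S.a (2 * A) T
        (Pool.Agent.X257.AE.nd t)) / Real.log t.den)) := by
    refine le_trans (sum_le_sum (g := fun t => (Pool.Agent.X257.AE.indP {t : ℤ × ℤ |
      (∀ j, Pool.Agent.W307.RT.fv (fun j => (S.l j).1) (fun j => (S.l j).2) t.1 t.2 j ≠ 0) ∧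
      Pool.Agent.TH344.DT.rho T (Pool.Agent.TH344.BF.omB (fun j => (S.l j).1)
        (fun j => (S.l j).2) t) < 1} (Pool.Agent.X257.AE.nd t) / Real.log t.den +
      1 / ((2 : ℝ) ^ A) ^ r * (Real.sqrt (Pool.Agent.TH344.BF.WBl S.l S.m S.a (2 * A) T
        (Pool.Agent.X257.AE.nd t)) / Real.log t.den))) fun t ht => ?_)
      (sum_le_sum_of_subset_of_nonneg (fun t ht => ?_) fun t _ _ => ?_)
    · obtain ⟨-, ht1, ht2⟩ := hfin'.mem_toFinset.1 ht
      have h7 := one_le hS (k := A) (T := T) ht1 ht2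
      have h8 := div_le_div_of_nonneg_right h7 (Real.log_natCast_nonneg t.den)
      rw [add_div, mul_div_assoc] at h8
      exact h8
    · rw [hfin.mem_toFinset]
      exact hsub (hfin'.mem_toFinset.1 ht)
    · have e1 := Pool.Agent.X257.AE.indP_nonneg {t : ℤ × ℤ |
        (∀ j, Pool.Agent.W307.RT.fv (fun j => (S.l j).1) (fun j => (S.l j).2) t.1 t.2 j ≠ 0) ∧
        Pool.Agent.TH344.DT.rho T (Pool.Agent.TH344.BF.omB (fun j => (S.l j).1)
          (fun j => (S.l j).2) t) < 1} (Pool.Agent.X257.AE.nd t)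
      have e2 := Real.log_natCast_nonneg t.den
      exact add_nonneg (div_nonneg e1 e2)
        (mul_nonneg (by positivity) (div_nonneg (Real.sqrt_nonneg _) e2))
  refine h6.trans ?_
  rw [sum_add_distrib, ← mul_sum]
  have h7 : 1 / ((2 : ℝ) ^ A) ^ r * (D * Real.log (Real.log Q)) ≤
      1 / 2 * (1 / (A : ℝ) ^ r) * Real.log (Real.log Q) := by
    rw [← mul_assoc]
    refine mul_le_mul_of_nonneg_right ?_ hQ0
    have e1 : (2 : ℝ) * A ≤ 2 ^ A := by
      have e2 : ∀ n : ℕ, 2 * (n + 1) ≤ 2 ^ (n + 1) := by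
        intro n
        induction n with
        | zero => norm_num
        | succ n ih =>
          have : 2 ^ (n + 1 + 1) = 2 * 2 ^ (n + 1) := by ring
          omega
      have e3 : 2 * A ≤ 2 ^ A := by
        obtain ⟨m, rfl⟩ : ∃ m, A = m + 1 := ⟨A - 1, by omega⟩
        exact e2 m
      exact_mod_cast e3
    have e2 : (2 * (A : ℝ)) ^ r ≤ ((2 : ℝ) ^ A) ^ r := pow_le_pow_left₀ (by positivity) e1 r
    have e3 : 2 * D ≤ 2 ^ r := by
      have e4 : 2 * D ≤ ⌈2 * D⌉₊ := Nat.le_ceil _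
      have e5 : (⌈2 * D⌉₊ : ℝ) ≤ r := by exact_mod_cast hr
      have e6 : (r : ℝ) ≤ 2 ^ r := by
        have : r ≤ 2 ^ r := Nat.lt_two_pow_self.le
        exact_mod_cast this
      linarith
    have e4 : 1 / ((2 : ℝ) ^ A) ^ r ≤ 1 / (2 * (A : ℝ)) ^ r :=
      one_div_le_one_div_of_le (by positivity) e2
    calc 1 / ((2 : ℝ) ^ A) ^ r * D ≤ 1 / (2 * (A : ℝ)) ^ r * D :=
          mul_le_mul_of_nonneg_right e4 hD0
      _ = 1 / (A : ℝ) ^ r * (D / 2 ^ r) := by
          rw [mul_pow]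
          field_simp
      _ ≤ 1 / (A : ℝ) ^ r * (1 / 2) := by
          refine mul_le_mul_of_nonneg_left ?_ (by positivity)
          rw [div_le_iff₀ (by positivity)]
          linarith
      _ = 1 / 2 * (1 / (A : ℝ) ^ r) := by ring
  have h8 := mul_le_mul_of_nonneg_left h4' (show 0 ≤ 1 / ((2 : ℝ) ^ A) ^ r by positivity)
  linarith

/-- **Theorem.** `S26` satisfies the conditions `Ok`, and all its fibres which are elliptic curves have
a subgroup `Z/2 x Z/6` of rational points. There are numbers `r₀(S, A, c, K)` such that for almost every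
real `α`, for all the surfaces `S` with `n > 0` which satisfy the conditions `Ok` and all natural numbers
`A ≥ 1`, `c` and `r ≥ r₀(S, A, c, ⌊α⌋)`: for all large `Q` the sum of `1 / log v` over the rational
numbers `t` with denominator `2 ≤ v ≤ Q` and `|α - t| ≤ c / v²` for which `E_t` is an elliptic curve
with `rank + corank ≥ r` is at most `A ^ (-r) log log Q`. -/
theorem result :
    (S26.Ok ∧ ∀ t : ℚ, S26.Smooth t →
      ∃ f : ZMod 2 × ZMod 6 →+ (S26.fib t).toAffine.Point, Function.Injective f) ∧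
    ∃ r₀ : Surface → ℕ → ℕ → ℤ → ℕ, ∀ᵐ α : ℝ, ∀ S : Surface, S.Ok → 0 < S.n → ∀ A c r : ℕ, 1 ≤ A →
      r₀ S A c ⌊α⌋ ≤ r → ∀ᶠ Q : ℕ in atTop,
        ∑ᶠ t ∈ High S r α c Q, 1 / Real.log t.den ≤ 1 / (A : ℝ) ^ r * Real.log (Real.log Q) := by
  classical
  refine ⟨⟨S26_ok, S26_tors⟩, ?_⟩
  choose r₀ hr₀ using exR
  refine ⟨r₀, ?_⟩
  rw [ae_all_iff]
  intro S
  by_cases hS : S.Ok ∧ 0 < S.n
  swap
  · exact Eventually.of_forall fun α h h' => absurd ⟨h, h'⟩ hS
  have h1 : ∀ᵐ α : ℝ, ∀ A c : ℕ, ∀ K : ℤ, 1 ≤ A → α ∈ Set.Ico (K : ℝ) (K + 1) → ∀ r : ℕ,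
      r₀ S A c K ≤ r → ∀ᶠ Q : ℕ in atTop,
        ∑ᶠ t ∈ High S r α c Q, 1 / Real.log t.den ≤ 1 / (A : ℝ) ^ r * Real.log (Real.log Q) := by
    rw [ae_all_iff]
    intro A
    rw [ae_all_iff]
    intro c
    rw [ae_all_iff]
    intro K
    by_cases hA : 1 ≤ A
    · filter_upwards [hr₀ S A c K hS.1 hS.2 hA] with α hα _
      exact hα
    · exact Eventually.of_forall fun α h => absurd h hA
  filter_upwards [h1] with α hα _ _ A c r hA hr
  exact hα A c ⌊α⌋ hA ⟨Int.floor_le α, Int.lt_floor_add_one α⟩ r hr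

end Pool.Agent.Results.MP_9e6228_nt.RankTailsAtApproximations
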