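import Pool.Agent.X61.RI.Rank

/-!
# The ranks of the elliptic curves with multiplicative reduction in an infinite random set of primes

Let `S₀` be a finite set of primes and `T` a random set of primes: the events `p ∈ T` are independent
and of probability at most `p ^ (-τ)`. (For probabilities `p ^ (-τ)` with `τ ≤ 1` such a set `T` is
infinite.) We consider elliptic curves `E` over `ℚ` with full rational 2-torsion and potentially good
reduction outside `S₀ ∪ T`. The bound of the descent for the rank of `E` contains the number of the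
primes of multiplicative reduction, for which there is no bound a priori, even if `E` is semistable.

1. Let `τ > 2/3`. With probability one there is a constant `C` such that the rank of all these curves
   is at most `2 a(E) + C`, where `a(E)` is the number of primes of additive reduction of `E` outside
   `S₀`. Let `0 < δ < τ - 2/3`. With probability at least `1 - C' R ^ (-δ)` this is true for the curves
   with potentially good reduction outside `S₀` and the primes `p ≥ R` of `T`, with a constant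
   `C = C(S₀)` which does not depend on `T` and `R`.
2. The same for `τ > 2/q` for the curves with full 2-torsion in a one-parameter family (all curves
   whose `j`-invariant is a value of a rational function `P/Q`) with `q ≥ 3` rational poles (cusps);
   for instance `q = 4` for the curves with a subgroup `Z/2 x Z/4` and the family
   `j = 256 (t⁴ - t² + 1)³ / (t⁴ (t² - 1)²)`.
-/

set_option autoImplicit false

namespace Pool.Agent.Results.MP_9e6228_nt.RanksRandomPrimes

open NumberField IsDedekindDomain MeasureTheory ProbabilityTheory Polynomial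
open Pool.Agent.X61.RI (IsPole SemistableAt FullTwoTorsion)

/-- the absolute norm of a prime of `ℚ`, i.e. the prime number `p` -/
noncomputable def norm (v : HeightOneSpectrum (𝓞 ℚ)) : ℝ := (Ideal.absNorm v.asIdeal : ℝ)

/-- the primes outside `S₀` at which the curve has additive reduction -/
def additive (S₀ : Set (HeightOneSpectrum (𝓞 ℚ))) (W : WeierstrassCurve ℚ) :
    Set (HeightOneSpectrum (𝓞 ℚ)) := {v | v ∉ S₀ ∧ ¬ SemistableAt v W}

/-- the rank is at most `2 a(E) + C` -/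
def RankBound (S₀ : Set (HeightOneSpectrum (𝓞 ℚ))) (W : WeierstrassCurve ℚ) (C : ℕ) : Prop :=
  (additive S₀ W).Finite ∧
    Module.finrank ℤ W.toAffine.Point ≤ 2 * (additive S₀ W).ncard + C

/-- the `j`-invariant `c₄ ^ 3 / Δ` of the curve is a value of `P / Q` -/
def InFamily (P Q : ℚ[X]) (W : WeierstrassCurve ℚ) : Prop :=
  ∃ t : ℚ, Q.eval t ≠ 0 ∧ W.c₄ ^ 3 / W.Δ = P.eval t / Q.eval t

/-- With probability one there is a constant `C` such that the rank is at most `2 a(E) + C` for all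
elliptic curves over `ℚ` with full 2-torsion and the property `F` which have potentially good
reduction outside `S₀ ∪ T`, where `T = {v | ω ∈ E v}` -/
def AlmostSurely (F : WeierstrassCurve ℚ → Prop) (S₀ : Set (HeightOneSpectrum (𝓞 ℚ))) (τ : ℝ) :
    Prop :=
  ∀ (Ω : Type) [MeasurableSpace Ω] (μ : Measure Ω) (E : HeightOneSpectrum (𝓞 ℚ) → Set Ω),
    iIndepSet E μ → (∀ v, μ (E v) ≤ ENNReal.ofReal (norm v ^ (-τ))) →
    ∀ᵐ ω ∂μ, ∃ C : ℕ, ∀ (W : WeierstrassCurve ℚ) [W.IsElliptic], FullTwoTorsion W → F W →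
      (∀ v, v ∉ S₀ → ω ∉ E v → v.valuation ℚ W.j ≤ 1) → RankBound S₀ W C

/-- There is a constant `C₀` such that for `0 < δ < τ - θ` with probability at least
`1 - C R ^ (-δ)` the rank is at most `2 a(E) + C₀` for all elliptic curves over `ℚ` with full
2-torsion and the property `F` which have potentially good reduction outside `S₀` and the primes
of `T` of norm at least `R` -/
def Uniformly (F : WeierstrassCurve ℚ → Prop) (S₀ : Set (HeightOneSpectrum (𝓞 ℚ))) (τ θ : ℝ) :
    Prop :=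
  ∃ C₀ : ℕ, ∀ δ : ℝ, 0 < δ → δ < τ - θ → ∃ C : ℝ, 0 < C ∧
    ∀ (Ω : Type) [MeasurableSpace Ω] (μ : Measure Ω) (E : HeightOneSpectrum (𝓞 ℚ) → Set Ω),
    iIndepSet E μ → (∀ v, μ (E v) ≤ ENNReal.ofReal (norm v ^ (-τ))) → ∀ R : ℝ, 0 < R →
    μ {ω | ¬ ∀ (W : WeierstrassCurve ℚ) [W.IsElliptic], FullTwoTorsion W → F W →
      (∀ v, v ∉ S₀ → ¬ (R ≤ norm v ∧ ω ∈ E v) → v.valuation ℚ W.j ≤ 1) → RankBound S₀ W C₀} ≤
        ENNReal.ofReal (C * R ^ (-δ))

theorem j_eq (W : WeierstrassCurve ℚ) [W.IsElliptic] : W.c₄ ^ 3 / W.Δ = W.j := by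
  rw [div_eq_iff (Pool.Agent.X61.RI.Δ_ne W), Pool.Agent.X61.RI.j_mul]

theorem indep_empty {ι Ω : Type} [MeasurableSpace Ω] (μ : Measure Ω) [IsProbabilityMeasure μ] :
    iIndepSet (fun _ : ι => (∅ : Set Ω)) μ := by
  rw [iIndepSet_iff_meas_biInter fun _ => MeasurableSet.empty]
  intro S
  rcases S.eq_empty_or_nonempty with h | ⟨i, hi⟩
  · rw [h]
    simp
  · rw [Finset.prod_eq_zero hi measure_empty]
    refine measure_mono_null (Set.biInter_subset_of_mem hi) measure_empty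

section

variable {P Q : ℚ[X]} {q : ℕ} {c : Fin q → Option ℚ} {S₀ : Set (HeightOneSpectrum (𝓞 ℚ))} {τ : ℝ}

theorem values_finite (hP : P ≠ 0) (hQ : Q ≠ 0) (hPQ : IsCoprime P Q) (hq : 3 ≤ q)
    (hinj : Function.Injective c) (hc : ∀ l, IsPole P Q (c l)) (hS₀ : S₀.Finite) :
    {t : ℚ | Q.eval t ≠ 0 ∧ ∀ v : HeightOneSpectrum (𝓞 ℚ), v ∉ S₀ →
      v.valuation ℚ (P.eval t / Q.eval t) ≤ 1}.Finite := by
  have h := Pool.Agent.X61.RI.fam_finite (μ := Measure.dirac ())
    (E := fun _ : HeightOneSpectrum (𝓞 ℚ) => (∅ : Set Unit)) (τ := 2 / (q : ℝ) + 1)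
    hP hQ hPQ hq hinj hc S₀ hS₀ (by linarith) (indep_empty _) (fun v => by
      rw [measure_empty]
      exact zero_le)
  obtain ⟨ω, hω⟩ := h.exists
  exact hω.subset fun t ht => ⟨ht.1, fun v hv _ => ht.2 v hv⟩

theorem ne_zero_of_pole (hPQ : IsCoprime P Q) (hq : 3 ≤ q) (hc : ∀ l, IsPole P Q (c l)) :
    P ≠ 0 := by
  rintro rfl
  have h0 := hc ⟨0, by omega⟩
  have hu : IsUnit Q := isCoprime_zero_left.1 hPQ
  rcases hco : c ⟨0, by omega⟩ with _ | a
  · rw [hco] at h0
    have h1 : Q.natDegree < (0 : ℚ[X]).natDegree := h0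
    rw [natDegree_zero] at h1
    omega
  · rw [hco] at h0
    have h1 : Q.eval a = 0 := h0
    obtain ⟨b, hb, hbQ⟩ := Polynomial.isUnit_iff.1 hu
    rw [← hbQ, eval_C] at h1
    exact hb.ne_zero h1

theorem bound_of {L : Set ℚ} (hL : L.Finite) (hS₀ : S₀.Finite) : ∃ C : ℕ,
    ∀ (W : WeierstrassCurve ℚ) [W.IsElliptic], FullTwoTorsion W → W.j ∈ L →
      RankBound S₀ W C := by
  obtain ⟨C, hC⟩ := Pool.Agent.X61.RI.rank_finite hL hS₀
  refine ⟨C, fun W _ hW hj => ?_⟩
  obtain ⟨h1, h2⟩ := hC W hW hj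
  exact ⟨h1.subset fun v hv => hv.2, h2⟩

theorem family (hQ : Q ≠ 0) (hPQ : IsCoprime P Q) (hq : 3 ≤ q)
    (hinj : Function.Injective c) (hc : ∀ l, IsPole P Q (c l)) (hS₀ : S₀.Finite)
    (hτ : 2 / (q : ℝ) < τ) : AlmostSurely (InFamily P Q) S₀ τ := by
  intro Ω _ μ E hi hE
  have hP := ne_zero_of_pole hPQ hq hc
  filter_upwards [Pool.Agent.X61.RI.fam_finite hP hQ hPQ hq hinj hc S₀ hS₀ hτ hi hE] with ω hω
  obtain ⟨C, hC⟩ := bound_of (hω.image fun t => P.eval t / Q.eval t) hS₀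
  refine ⟨C, fun W _ hW hF hj => hC W hW ?_⟩
  obtain ⟨t, ht, htj⟩ := hF
  rw [j_eq] at htj
  exact ⟨t, ⟨ht, fun v hv hv' => by rw [← htj]; exact hj v hv hv'⟩, htj.symm⟩

theorem family_small (hQ : Q ≠ 0) (hPQ : IsCoprime P Q) (hq : 3 ≤ q)
    (hinj : Function.Injective c) (hc : ∀ l, IsPole P Q (c l)) (hS₀ : S₀.Finite)
    (hs : Q.Splits) (hall : ∀ o, IsPole P Q o → ∃ l, c l = o) :
    Uniformly (InFamily P Q) S₀ τ (2 / (q : ℝ)) := by
  have hP := ne_zero_of_pole hPQ hq hc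
  obtain ⟨C₀, hC₀⟩ := bound_of
    ((values_finite hP hQ hPQ hq hinj hc hS₀).image fun t => P.eval t / Q.eval t) hS₀
  refine ⟨C₀, fun δ hδ hδτ => ?_⟩
  obtain ⟨C, hC, h⟩ := Pool.Agent.X61.RI.fam_small hP hQ hPQ hq hinj hc hs hall S₀ hS₀ hδ hδτ
  refine ⟨C, hC, fun Ω _ μ E hi hE R hR => (measure_mono ?_).trans (h μ E hi hE R hR)⟩
  intro ω hω
  by_contra hcon
  apply hω
  intro W _ hW hF hj
  refine hC₀ W hW ?_
  obtain ⟨t, ht, htj⟩ := hF
  rw [j_eq] at htj
  refine ⟨t, ⟨ht, fun v hv => ?_⟩, htj.symm⟩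
  by_contra hv'
  exact hcon ⟨t, ht, fun w hw hw' => by rw [← htj]; exact hj w hw hw', v, hv, not_le.1 hv'⟩

end

/-! ### all curves with full 2-torsion -/

/-- the numerator of the `j`-invariant of the family of Legendre -/
noncomputable def PL : ℚ[X] := 256 * (X ^ 2 - X + 1) ^ 3

/-- the denominator -/
noncomputable def QL : ℚ[X] := (X * (X - 1)) ^ 2

theorem QL_ne : QL ≠ 0 := by
  unfold QL
  exact pow_ne_zero 2 (mul_ne_zero X_ne_zero (by
    have := X_sub_C_ne_zero (1 : ℚ)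
    rwa [C_1] at this))

theorem coprime_L : IsCoprime PL QL := by
  unfold PL QL
  have h1 : IsCoprime (X ^ 2 - X + 1 : ℚ[X]) (X * (X - 1)) := ⟨1, -1, by ring⟩
  have h2 : IsUnit (256 : ℚ[X]) := by
    have : (256 : ℚ[X]) = C 256 := (map_ofNat C 256).symm
    rw [this, isUnit_C]
    exact IsUnit.mk0 _ (by norm_num)
  exact (isCoprime_mul_unit_left_left h2 _ _).2 h1.pow

/-- the poles -/
def cL : Fin 3 → Option ℚ := ![none, some 0, some 1]

theorem cL_inj : Function.Injective cL := by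
  intro i j h
  fin_cases i <;> fin_cases j <;> simp_all [cL]

theorem QL_eval (a : ℚ) : QL.eval a = (a * (a - 1)) ^ 2 := by
  unfold QL
  simp

theorem PL_eval (a : ℚ) : PL.eval a = 256 * (a ^ 2 - a + 1) ^ 3 := by
  unfold PL
  simp

theorem cL_pole (l : Fin 3) : IsPole PL QL (cL l) := by
  have hd : QL.natDegree < PL.natDegree := by
    have e1 : QL.natDegree = 4 := by
      unfold QL
      compute_degree!
    have e2 : PL.natDegree = 6 := by
      unfold PL
      compute_degree!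
    omega
  fin_cases l
  · exact hd
  · show QL.eval 0 = 0
    rw [QL_eval]
    norm_num
  · show QL.eval 1 = 0
    rw [QL_eval]
    norm_num

theorem cL_all (o : Option ℚ) (h : IsPole PL QL o) : ∃ l, cL l = o := by
  rcases o with _ | a
  · exact ⟨0, rfl⟩
  · have h1 : QL.eval a = 0 := h
    rw [QL_eval, pow_eq_zero_iff two_ne_zero, mul_eq_zero] at h1
    rcases h1 with h2 | h2
    · exact ⟨1, by rw [h2]; rfl⟩
    · exact ⟨2, by rw [sub_eq_zero.1 h2]; rfl⟩

theorem QL_splits : QL.Splits := by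
  unfold QL
  have h : (X - 1 : ℚ[X]).Splits := by
    have := Polynomial.Splits.X_sub_C (1 : ℚ)
    rwa [C_1] at this
  exact (Polynomial.Splits.X.mul h).pow 2

theorem inFamily_L (W : WeierstrassCurve ℚ) [W.IsElliptic] (h : FullTwoTorsion W) :
    InFamily PL QL W := by
  obtain ⟨V, x, A, h0, h1, -, -, hj⟩ := Pool.Agent.X61.RI.full_leg W h
  have hQ : QL.eval x ≠ 0 := by
    rw [QL_eval]
    exact pow_ne_zero 2 (mul_ne_zero h0 (sub_ne_zero.2 h1))
  refine ⟨x, hQ, ?_⟩
  rw [j_eq, eq_div_iff hQ, QL_eval, PL_eval]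
  linear_combination (1 / 16 : ℚ) * hj

/-- **The ranks of the elliptic curves with multiplicative reduction in a random set of primes.** -/
theorem result (S₀ : Set (HeightOneSpectrum (𝓞 ℚ))) (hS₀ : S₀.Finite) (τ : ℝ) :
    (2 / 3 < τ → AlmostSurely (fun _ => True) S₀ τ ∧ Uniformly (fun _ => True) S₀ τ (2 / 3)) ∧
    ∀ (P Q : ℚ[X]) (q : ℕ) (c : Fin q → Option ℚ), Q ≠ 0 → IsCoprime P Q → 3 ≤ q →
      Function.Injective c → (∀ l, IsPole P Q (c l)) → 2 / (q : ℝ) < τ →
      AlmostSurely (InFamily P Q) S₀ τ ∧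
      (Q.Splits → (∀ o, IsPole P Q o → ∃ l, c l = o) →
        Uniformly (InFamily P Q) S₀ τ (2 / (q : ℝ))) := by
  have h3 : (2 : ℝ) / ((3 : ℕ) : ℝ) = 2 / 3 := by norm_num
  refine ⟨fun hτ => ⟨?_, ?_⟩, fun P Q q c hQ hPQ hq hinj hc hτ =>
    ⟨family hQ hPQ hq hinj hc hS₀ hτ, family_small hQ hPQ hq hinj hc hS₀⟩⟩
  · intro Ω _ μ E hi hE
    filter_upwards [family QL_ne coprime_L le_rfl cL_inj cL_pole hS₀ (h3 ▸ hτ) Ω μ E hi hE]
      with ω hω
    obtain ⟨C, hC⟩ := hω
    exact ⟨C, fun W _ hW _ hj => hC W hW (inFamily_L W hW) hj⟩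
  · obtain ⟨C₀, hC₀⟩ := family_small (τ := τ) QL_ne coprime_L le_rfl cL_inj cL_pole hS₀ QL_splits
      cL_all
    refine ⟨C₀, fun δ hδ hδτ => ?_⟩
    obtain ⟨C, hC, h⟩ := hC₀ δ hδ (by rw [h3]; exact hδτ)
    refine ⟨C, hC, fun Ω _ μ E hi hE R hR => (measure_mono ?_).trans (h Ω μ E hi hE R hR)⟩
    intro ω hω hcon
    exact hω fun W _ hW _ hj => hcon W hW (inFamily_L W hW) hj

end Pool.Agent.Results.MP_9e6228_nt.RanksRandomPrimes
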